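import Mathlib

/-!
PROJECT BP (MP_1cfd37_ag), block G, module G1: algebraic dependence over a subfield `K` of `ℝ` inside `ℂ`.

`cl K s` = the field of all complex numbers which are algebraic over `K(s)`.

PROOF. `cl K s` is `Subalgebra.algebraicClosure (Algebra.adjoin K s) ℂ`, which is closed under inverses (`IsAlgebraic.inv`), so it is a subfield.
`mem_cl_iff` is by definition; `cl_eq_closure` is `AlgebraicIndependent.matroid_closure_eq`. `cl_le_cl` (transitivity) is
`IsAlgebraic.adjoin_of_forall_isAlgebraic` (or the closure axioms of the matroid: `Matroid.closure_subset_closure_of_subset_closure`).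
`mem_cl_of_sq`: if `a^2` is algebraic over `A = adjoin K s` then so is `a` (`IsAlgebraic.of_pow`).
-/

set_option autoImplicit false

namespace Pool.Agent.Helper78.BPG

/-- The matroid of algebraic independence over `K` in `ℂ`. -/
noncomputable abbrev mat (K : Subfield ℝ) : Matroid ℂ := AlgebraicIndependent.matroid K ℂ

/-- The field of the complex numbers which are algebraic over `K(s)`. -/
noncomputable def cl (K : Subfield ℝ) (s : Set ℂ) : Subfield ℂ where
  toSubring := (Subalgebra.algebraicClosure (Algebra.adjoin K s) ℂ).toSubring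
  inv_mem' := by
    intro x hx
    exact IsAlgebraic.inv hx

theorem mem_cl_iff (K : Subfield ℝ) (s : Set ℂ) (a : ℂ) : a ∈ cl K s ↔ IsAlgebraic (Algebra.adjoin K s) a := by
  rfl

theorem cl_eq_closure (K : Subfield ℝ) (s : Set ℂ) : (cl K s : Set ℂ) = (mat K).closure s := by
  rw [AlgebraicIndependent.matroid_closure_eq]
  rfl

theorem subset_cl (K : Subfield ℝ) (s : Set ℂ) : s ⊆ cl K s := by
  intro a ha
  have h : a ∈ cl K s := by
    rw [mem_cl_iff]
    exact isAlgebraic_algebraMap (⟨a, Algebra.subset_adjoin ha⟩ : Algebra.adjoin K s)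
  exact h

theorem cl_mono (K : Subfield ℝ) {s t : Set ℂ} (h : s ⊆ t) : cl K s ≤ cl K t := by
  have h1 : (cl K s : Set ℂ) ⊆ cl K t := by
    rw [cl_eq_closure, cl_eq_closure]
    exact (mat K).closure_subset_closure h
  exact h1

theorem cl_le_cl (K : Subfield ℝ) {s t : Set ℂ} (h : s ⊆ cl K t) : cl K s ≤ cl K t := by
  have h1 : (cl K s : Set ℂ) ⊆ cl K t := by
    rw [cl_eq_closure] at h ⊢
    rw [cl_eq_closure]
    exact Matroid.closure_subset_closure_of_subset_closure h
  exact h1

theorem real_mem_cl (K : Subfield ℝ) (s : Set ℂ) (a : ℝ) (ha : a ∈ K) : (a : ℂ) ∈ cl K s := by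
  rw [mem_cl_iff]
  have h : (a : ℂ) = algebraMap (Algebra.adjoin K s) ℂ (algebraMap K (Algebra.adjoin K s) ⟨a, ha⟩) := by
    rfl
  rw [h]
  exact isAlgebraic_algebraMap _

theorem mem_cl_of_sq (K : Subfield ℝ) (s : Set ℂ) (a : ℂ) (ha : a ^ 2 ∈ cl K s) : a ∈ cl K s := by
  rw [mem_cl_iff] at ha ⊢
  exact IsAlgebraic.of_pow two_pos ha

end Pool.Agent.Helper78.BPG
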