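import Mathlib

/-!
PROJECT BP (MP_1cfd37_ag), block G, module G4: a countable field of definition.

PROOF. `MvPolynomial σ ℝ` is Noetherian (`σ` finite), so `J = span A`, `I = span B` with finite `A`, `B`. Let `K` be the subfield of `ℝ` generated by `S` and by all coefficients
of the elements of `A ∪ B` (a countable set). It is countable (`Subfield.cardinalMk_closure_le_max`, or: the image of a countable ring of fractions). Every element of `A` is the image of
a polynomial over `K` (`MvPolynomial.mem_map_range` / `mem_range_map_iff_coeffs_subset`), which lies in `comap J`; so `J ≤ map (comap J)`; the other inclusion is `Ideal.map_comap_le`.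
-/

set_option autoImplicit false

namespace Pool.Agent.Helper78.BPG

open MvPolynomial

/-- `J` is generated by its elements with coefficients in `K`. -/
def DefOver {σ : Type} (K : Subfield ℝ) (J : Ideal (MvPolynomial σ ℝ)) : Prop :=
  J = Ideal.map (MvPolynomial.map (algebraMap K ℝ)) (Ideal.comap (MvPolynomial.map (algebraMap K ℝ)) J)

private theorem defOver_of_gens {σ : Type} (K : Subfield ℝ) (J : Ideal (MvPolynomial σ ℝ))
    (A : Finset (MvPolynomial σ ℝ)) (hA : Ideal.span (A : Set (MvPolynomial σ ℝ)) = J)
    (hK : ∀ a ∈ A, ∀ c ∈ a.coeffs, c ∈ K) : DefOver K J := by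
  unfold DefOver
  refine le_antisymm ?_ Ideal.map_comap_le
  conv_lhs => rw [← hA]
  rw [Ideal.span_le]
  intro a ha
  have ha' : a ∈ A := by exact_mod_cast ha
  have hr : a ∈ Set.range (MvPolynomial.map (σ := σ) (algebraMap K ℝ)) := by
    rw [mem_range_map_iff_coeffs_subset]
    intro c hc
    exact ⟨⟨c, hK a ha' c (by exact_mod_cast hc)⟩, rfl⟩
  obtain ⟨b, hb⟩ := hr
  rw [SetLike.mem_coe, ← hb]
  apply Ideal.mem_map_of_mem
  rw [Ideal.mem_comap, hb, ← hA]
  exact Ideal.subset_span ha

theorem exists_field {σ : Type} [Finite σ] (J I : Ideal (MvPolynomial σ ℝ)) (S : Set ℝ) (hS : S.Countable) :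
    ∃ K : Subfield ℝ, Countable K ∧ S ⊆ K ∧ DefOver K J ∧ DefOver K I := by
  classical
  obtain ⟨A, hA⟩ := (isNoetherian_def.mp (inferInstance : IsNoetherianRing (MvPolynomial σ ℝ))) J
  obtain ⟨B, hB⟩ := (isNoetherian_def.mp (inferInstance : IsNoetherianRing (MvPolynomial σ ℝ))) I
  have hA' : Ideal.span (A : Set (MvPolynomial σ ℝ)) = J := hA
  have hB' : Ideal.span (B : Set (MvPolynomial σ ℝ)) = I := hB
  set T : Set ℝ := S ∪ ((A ∪ B).biUnion (fun a => a.coeffs) : Finset ℝ) with hT
  have hTc : T.Countable := hS.union (Finset.countable_toSet _)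
  refine ⟨Subfield.closure T, ?_, ?_, ?_, ?_⟩
  · rw [← Cardinal.mk_le_aleph0_iff]
    refine (Subfield.cardinalMk_closure_le_max T).trans ?_
    rw [max_le_iff]
    exact ⟨Cardinal.le_aleph0_iff_set_countable.mpr hTc, le_refl _⟩
  · exact Set.subset_union_left.trans Subfield.subset_closure
  · refine defOver_of_gens _ J A hA' ?_
    intro a ha c hc
    apply Subfield.subset_closure
    right
    rw [Finset.mem_coe, Finset.mem_biUnion]
    exact ⟨a, Finset.mem_union_left _ ha, hc⟩
  · refine defOver_of_gens _ I B hB' ?_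
    intro a ha c hc
    apply Subfield.subset_closure
    right
    rw [Finset.mem_coe, Finset.mem_biUnion]
    exact ⟨a, Finset.mem_union_right _ ha, hc⟩

end Pool.Agent.Helper78.BPG
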