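import Pool.Agent.Helper72.BP.Defs

/-!
PROJECT BP (MP_1cfd37_ag), block G, module G9: weighted homogeneity and naturality of the section.

PROOF. `aeval_scale`: write `f = ∑ monomial` (`MvPolynomial.aeval_def, eval₂_eq'` / `as_sum`); every monomial `d` of the support has `weight wt d = n`, so `∏ (c ^ wt v * w v) ^ d v = c ^ n * ∏ (w v) ^ d v`
(`Finsupp.weight_apply`, `Finset.prod_pow_eq_pow_sum`).
`isZero_scale`: `f = ∑ components` (`weightedHomogeneousComponent_finsupp`, `sum_weightedHomogeneousComponent`), each component `f_n` lies in `J`; `(c • y, c ^ 2 • t) = fun v => c ^ wt v * (Sum.elim y t) v`, so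
`f_n (c y, c² t) = c ^ n * f_n (y, t) = 0`.
`cone_comp`: let `x ∈ Z`, `f ∈ coneIdeal Z`. The polynomial `∑_n f_n(x) S^n` in the variable `S` vanishes at every real number `S = c`, (its value is `f (c y, c² t)` by `aeval_scale`), so it is zero
(`Polynomial.funext` or `Polynomial.eq_zero_of_infinite_isRoot`), so `f_n (x) = 0`, and `f_n (c y, c² t) = c ^ n * f_n (x) = 0`.
The rest is unfolding: `act`, `uR`, `tR`, `inc`, `sq` does not depend on the ring, `nj` and `mon` are polynomial. (`uR` and `tR` are defined by pattern matching: use `rcases s with j | s`, `rcases j with a | ab | ab`.)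
-/

set_option autoImplicit false

namespace Pool.Agent.Helper78.BPG

open MvPolynomial Pool.Agent.Helper72.BP

theorem aeval_scale {σ : Type} {R : Type} [CommRing R] [Algebra ℝ R] (wg : σ → ℕ) (f : MvPolynomial σ ℝ) (n : ℕ)
    (hf : IsWeightedHomogeneous wg f n) (c : R) (w : σ → R) :
    aeval (fun v => c ^ wg v * w v) f = c ^ n * aeval w f := by
  rw [aeval_def, aeval_def, eval₂_eq, eval₂_eq, Finset.mul_sum]
  refine Finset.sum_congr rfl fun d hd => ?_
  have hw : Finsupp.weight wg d = n := hf (mem_support_iff.mp hd)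
  have hs : ∑ i ∈ d.support, wg i * d i = n := by
    rw [← hw, Finsupp.weight_apply, Finsupp.sum]
    refine Finset.sum_congr rfl fun i _ => ?_
    rw [smul_eq_mul, mul_comm]
  have hp : ∏ i ∈ d.support, (c ^ wg i * w i) ^ d i = c ^ n * ∏ i ∈ d.support, w i ^ d i := by
    rw [← hs, ← Finset.prod_pow_eq_pow_sum, ← Finset.prod_mul_distrib]
    refine Finset.prod_congr rfl fun i _ => ?_
    rw [mul_pow, pow_mul]
  rw [hp]
  ring

private theorem scale_elim {ι τ : Type} {R : Type} [CommRing R] (y : ι → R) (t : τ → R) (c : R) :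
    (Sum.elim (c • y) (c ^ 2 • t) : Var ι τ → R) = fun v => c ^ (wt v) * (Sum.elim y t : Var ι τ → R) v := by
  funext v
  rcases v with v | v
  · simp [wt]
  · simp [wt]

private theorem scale_aeval_comp {ι τ : Type} {R : Type} [CommRing R] [Algebra ℝ R]
    (f : MvPolynomial (Var ι τ) ℝ) (n : ℕ) (y : ι → R) (t : τ → R) (c : R) :
    aeval (Sum.elim (c • y) (c ^ 2 • t) : Var ι τ → R)
      (weightedHomogeneousComponent (wt : Var ι τ → ℕ) n f) =
    c ^ n * aeval (Sum.elim y t : Var ι τ → R) (weightedHomogeneousComponent (wt : Var ι τ → ℕ) n f) := by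
  rw [scale_elim]
  exact aeval_scale _ _ n (weightedHomogeneousComponent_isWeightedHomogeneous n f) c _

private theorem scale_sum {ι τ : Type} (f : MvPolynomial (Var ι τ) ℝ) :
    ∃ s : Finset ℕ, f = ∑ n ∈ s, weightedHomogeneousComponent (wt : Var ι τ → ℕ) n f ∧
      ∀ n, n ∉ s → weightedHomogeneousComponent (wt : Var ι τ → ℕ) n f = 0 := by
  have hfin := weightedHomogeneousComponent_finsupp (w := (wt : Var ι τ → ℕ)) f
  refine ⟨hfin.toFinset, ?_, ?_⟩
  · conv_lhs => rw [← sum_weightedHomogeneousComponent (wt : Var ι τ → ℕ) f]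
    rw [finsum_eq_sum_of_support_toFinset_subset _ hfin (subset_refl _)]
  · intro n hn
    by_contra h
    exact hn (by rw [Set.Finite.mem_toFinset]; exact h)

theorem isZero_scale {ι τ : Type} {R : Type} [CommRing R] [Algebra ℝ R]
    (J : Ideal (MvPolynomial (Var ι τ) ℝ))
    (hJ : ∀ f ∈ J, ∀ d, weightedHomogeneousComponent (wt : Var ι τ → ℕ) d f ∈ J) (y : ι → R) (t : τ → R)
    (h : IsZero J y t) (c : R) : IsZero J (c • y) (c ^ 2 • t) := by
  intro f hf
  obtain ⟨s, hs, -⟩ := scale_sum f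
  rw [hs, map_sum]
  refine Finset.sum_eq_zero fun n _ => ?_
  rw [scale_aeval_comp, h _ (hJ f hf n), mul_zero]

/-- If a weighted homogeneous ideal does not vanish at a point, it does not vanish at the multiples of the point. -/
theorem ne_scale {ι τ : Type} (I : Ideal (MvPolynomial (Var ι τ) ℝ))
    (hI : ∀ f ∈ I, ∀ d, weightedHomogeneousComponent (wt : Var ι τ → ℕ) d f ∈ I) (y : ι → ℝ) (t : τ → ℝ)
    (h : ∃ f ∈ I, aeval (Sum.elim y t : Var ι τ → ℝ) f ≠ 0) (c : ℝ) (hc : c ≠ 0) :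
    ∃ f ∈ I, aeval (Sum.elim (c • y) (c ^ 2 • t) : Var ι τ → ℝ) f ≠ 0 := by
  by_contra hn
  push Not at hn
  obtain ⟨f, hf, hne⟩ := h
  have hz : IsZero I (c • y) (c ^ 2 • t) := hn
  have h2 := isZero_scale I hI (c • y) (c ^ 2 • t) hz c⁻¹
  have e1 : c⁻¹ • c • y = y := inv_smul_smul₀ hc y
  have e2 : c⁻¹ ^ 2 • c ^ 2 • t = t := by
    rw [smul_smul, ← mul_pow, inv_mul_cancel₀ hc, one_pow, one_smul]
  rw [e1, e2] at h2
  exact hne (h2 f hf)

theorem cone_comp {ι τ : Type} (Z : Set ((ι → ℝ) × (τ → ℝ)))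
    (f : MvPolynomial (Var ι τ) ℝ) (hf : f ∈ coneIdeal Z) (d : ℕ) :
    weightedHomogeneousComponent (wt : Var ι τ → ℕ) d f ∈ coneIdeal Z := by
  intro x hx c
  rw [scale_aeval_comp]
  obtain ⟨s, hs, hs0⟩ := scale_sum f
  have key : aeval (Sum.elim x.1 x.2 : Var ι τ → ℝ)
      (weightedHomogeneousComponent (wt : Var ι τ → ℕ) d f) = 0 := by
    let P : Polynomial ℝ := ∑ n ∈ s, Polynomial.C (aeval (Sum.elim x.1 x.2 : Var ι τ → ℝ)
      (weightedHomogeneousComponent (wt : Var ι τ → ℕ) n f)) * Polynomial.X ^ n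
    have hP : P = 0 := by
      refine Polynomial.funext fun u => ?_
      have h1 := hf x hx u
      rw [hs, map_sum] at h1
      simp only [P, Polynomial.eval_finset_sum, Polynomial.eval_mul, Polynomial.eval_C,
        Polynomial.eval_pow, Polynomial.eval_X, Polynomial.eval_zero]
      rw [← h1]
      refine Finset.sum_congr rfl fun n _ => ?_
      rw [scale_aeval_comp, mul_comm]
    by_cases hd : d ∈ s
    · have hc := congrArg (fun Q : Polynomial ℝ => Q.coeff d) hP
      simp only [P, Polynomial.finset_sum_coeff, Polynomial.coeff_C_mul, Polynomial.coeff_X_pow,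
        Polynomial.coeff_zero] at hc
      rw [Finset.sum_eq_single d] at hc
      · simpa using hc
      · intro n _ hne
        rw [if_neg (Ne.symm hne), mul_zero]
      · intro h; exact absurd hd h
    · rw [hs0 d hd, map_zero]
  rw [key, mul_zero]

theorem act_nat {ι τ : Type} [Fintype τ] {R S : Type} [CommRing R] [Algebra ℝ R] [CommRing S] [Algebra ℝ S]
    (φ : R →ₐ[ℝ] S) (A : Matrix ι τ ℝ) (u : τ → R) (s : ι) : φ (act A u s) = act A (fun x => φ (u x)) s := by
  simp only [act, map_sum, map_mul, AlgHom.commutes]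

private theorem scale_nj_nat {p : ℕ} {κ : Type} {R S : Type} [CommRing R] [Algebra ℝ R]
    [CommRing S] [Algebra ℝ S] (φ : R →ₐ[ℝ] S) (y : Ix p κ → R) (j : Qx p κ) :
    φ (nj y j) = nj (fun i => φ (y i)) j := by
  rcases j with a | ab | ab
  · simp only [nj, mon, map_mul]
  · simp only [nj, mon, map_mul, map_add]
  · simp only [nj, mon, map_mul, map_sub]

theorem tR_nat {p r : ℕ} {κ : Type} [Fintype κ] [DecidableEq κ] {R S : Type} [CommRing R] [Algebra ℝ R]
    [CommRing S] [Algebra ℝ S] (φ : R →ₐ[ℝ] S)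
    (G : Fin r → Matrix (Ix p κ) (Ix p κ) ℝ) (ε : ℝ) (γ : Matrix (Ix p κ) (Ix p κ) ℝ)
    (W : Matrix (Tx p r κ) (Tx p r κ) ℝ) (y : Ix p κ → R) (s : Tx p r κ) :
    φ (tR G ε γ W y s) = tR G ε γ W (fun i => φ (y i)) s := by
  unfold tR
  rw [act_nat]
  congr 1
  funext x
  rcases x with j | x
  · simp only [uR, map_mul, AlgHom.commutes, scale_nj_nat]
  · simp only [uR, map_zero]

theorem act_smul {ι τ : Type} [Fintype τ] {R : Type} [CommRing R] [Algebra ℝ R] (A : Matrix ι τ ℝ) (u : τ → R) (c : R) :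
    act A (c • u) = c • act A u := by
  funext s
  simp only [act, Pi.smul_apply, smul_eq_mul, Finset.mul_sum]
  refine Finset.sum_congr rfl fun x _ => ?_
  ring

private theorem scale_nj_scale {p : ℕ} {κ : Type} {R : Type} [CommRing R] (y : Ix p κ → R) (c : R) (j : Qx p κ) :
    nj (c • y) j = c ^ 2 * nj y j := by
  rcases j with a | ab | ab
  · simp only [nj, mon, Pi.smul_apply, smul_eq_mul]; ring
  · simp only [nj, mon, Pi.smul_apply, smul_eq_mul]; ring
  · simp only [nj, mon, Pi.smul_apply, smul_eq_mul]; ring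

theorem tR_scale {p r : ℕ} {κ : Type} [Fintype κ] [DecidableEq κ] {R : Type} [CommRing R] [Algebra ℝ R]
    (G : Fin r → Matrix (Ix p κ) (Ix p κ) ℝ) (ε : ℝ) (γ : Matrix (Ix p κ) (Ix p κ) ℝ)
    (W : Matrix (Tx p r κ) (Tx p r κ) ℝ) (y : Ix p κ → R) (c : R) :
    tR G ε γ W (c • y) = c ^ 2 • tR G ε γ W y := by
  unfold tR
  rw [← act_smul]
  congr 1
  funext x
  rcases x with j | x
  · simp only [uR, Pi.smul_apply, smul_eq_mul, scale_nj_scale]; ring
  · simp only [uR, Pi.smul_apply, smul_zero]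

/-- Scaling a zero on the section. -/
theorem section_scale {p r : ℕ} {κ : Type} [Fintype κ] [DecidableEq κ]
    (G : Fin r → Matrix (Ix p κ) (Ix p κ) ℝ) (ε : ℝ) (γ : Matrix (Ix p κ) (Ix p κ) ℝ)
    (W : Matrix (Tx p r κ) (Tx p r κ) ℝ) (J : Ideal (MvPolynomial (Var (Ix p κ) (Tx p r κ)) ℝ))
    (hJ : ∀ f ∈ J, ∀ d, weightedHomogeneousComponent (wt : Var (Ix p κ) (Tx p r κ) → ℕ) d f ∈ J)
    (x : Fin (p + 1) → ℂ) (h : IsZero J (act γ (inc x)) (tR G ε γ W (inc x))) (c : ℂ) :
    IsZero J (act γ (inc (c • x))) (tR G ε γ W (inc (c • x))) := by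
  have hinc : (inc (c • x) : Ix p κ → ℂ) = c • inc x := by
    funext i
    rcases i with i | i
    · simp [inc]
    · simp [inc]
  rw [hinc, act_smul, tR_scale]
  exact isZero_scale J hJ _ _ h c

end Pool.Agent.Helper78.BPG
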