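import Pool.Agent.Helper78.BPG.Rad
import Pool.Agent.Helper78.BPG.Field
import Pool.Agent.Helper78.BPG.Scale

/-!
PROJECT BP (MP_1cfd37_ag), block G, module G8: complex zeros of the ideal of a cone of regular points.

Notation: `σ = Var ι τ`, `J = coneIdeal Z`, `J0 = comap J` (its elements with coefficients in `K`),
`T = cpts Z` = the points `(c y, c² t)`, `(y, t) ∈ Z`, `c ≠ 0`.

PROOF. `cone_rad`: if `f ^ n` vanishes at a point then so does `f`; `comap` of a radical ideal is radical (`Ideal.IsRadical.comap`).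
`cone_detect`: if `f ∉ J0` then `f` does not vanish at some `(c y, c² t)`, `(y, t) ∈ Z`. If `c ≠ 0` we are done. If `c = 0`: the function `c ↦ f (c y, c² t)` is continuous (`MvPolynomial.continuous_eval`)
and nonzero at `0`, so it is nonzero at some `c ≠ 0` (a nonempty open set of reals is not contained in `{0}`).
`cone_gens`: (1) scaling: for `c ≠ 0` let `φ f = aeval (fun v => C (c⁻¹ ^ wt v) * X v) f`. Then `(φ f)(c y, c² t) = f (y, t)` for all `(y, t)`, and more generally `(φ f)(b y, b² t) = f ((b/c) y, (b/c)² t)`, so `φ` maps `J` to `J`;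
chain rule (`MvPolynomial.pderiv` of `aeval` of `C a * X v`; or induction on `f`): `pderiv a (φ f) = C (c⁻¹ ^ wt a) * φ (pderiv a f)`, so the gradient of `φ f` at `(c y, c² t)` is `c⁻¹ ^ wt a` times the gradient of `f` at `(y, t)`, and
the `s` gradients of `φ (f j)` at the point `x = (c y, c² t)` are still independent (`LinearIndependent.map'` by an injective diagonal map, or `LinearIndependent` of scaled coordinates).
(2) from `ℝ` to `K`: by `DefOver`, `J` is generated by the images of the elements of `J0`. For `f = ∑ a_i map (g_i)`, `g_i ∈ J0`, the product rule and `g_i (x) = 0` give `grad f (x) = ∑ a_i(x) grad g_i (x)`; so the gradients at `x` of the elements of `J`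
lie in the real span of `S = {grad g (x) | g ∈ J0}` (use `Submodule.span_induction` / `Submodule.closure_induction` for `f ∈ Ideal.span (map '' J0)`: the set of `f` with `f(x) = 0` and `grad f (x) ∈ span S` is an ideal). So `finrank (span S) ≥ s`, and there are `s` linearly independent vectors in `S`
(`exists_linearIndependent`, `exists_linearIndependent_extension`, or: a maximal independent subset of `S` spans).
`cone_bound`, `cone_bound_strict`: `rad_bound`, `rad_bound_strict` for `J0`, `T`, `I0 = comap I`. A complex zero of `J` is a zero of `J0` (`aeval_map_algebraMap`). For `x ∈ T` some element of `I` does not vanish at `x` (`ne_scale`), so by `DefOver K I` some element of `I0` does not vanish at `x`.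
-/

set_option autoImplicit false

namespace Pool.Agent.Helper78.BPG

open MvPolynomial Pool.Agent.Helper72.BP

/-- The points of the cone, without the vertex. -/
def cpts {ι τ : Type} (Z : Set ((ι → ℝ) × (τ → ℝ))) : Set (Var ι τ → ℝ) :=
  {x | ∃ z ∈ Z, ∃ c : ℝ, c ≠ 0 ∧ x = Sum.elim (c • z.1) (c ^ 2 • z.2)}

/-- The elements of `J` with coefficients in `K`. -/
noncomputable def down {σ : Type} (K : Subfield ℝ) (J : Ideal (MvPolynomial σ ℝ)) : Ideal (MvPolynomial σ K) :=
  Ideal.comap (MvPolynomial.map (algebraMap K ℝ)) J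

theorem cone_rad {ι τ : Type} (K : Subfield ℝ) (Z : Set ((ι → ℝ) × (τ → ℝ))) : (down K (coneIdeal Z)).IsRadical := by
  intro f hf
  obtain ⟨n, hn⟩ := hf
  intro x hx c
  have h := hn x hx c
  rw [map_pow, map_pow] at h
  exact eq_zero_of_pow_eq_zero h

private theorem cone_cont {ι τ : Type} (q : MvPolynomial (Var ι τ) ℝ) (z : (ι → ℝ) × (τ → ℝ)) :
    Continuous fun c : ℝ => aeval (Sum.elim (c • z.1) (c ^ 2 • z.2) : Var ι τ → ℝ) q := by
  have h1 : Continuous fun c : ℝ => (Sum.elim (c • z.1) (c ^ 2 • z.2) : Var ι τ → ℝ) := by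
    refine continuous_pi fun v => ?_
    rcases v with i | t
    · exact continuous_id.mul continuous_const
    · exact (continuous_id.pow 2).mul continuous_const
  have h2 := (MvPolynomial.continuous_eval q).comp h1
  exact h2

theorem cone_detect {ι τ : Type} [Fintype ι] [Fintype τ] (K : Subfield ℝ) (Z : Set ((ι → ℝ) × (τ → ℝ)))
    (f : MvPolynomial (Var ι τ) K) (hf : f ∉ down K (coneIdeal Z)) : ∃ x ∈ cpts Z, aeval x f ≠ 0 := by
  have h1 : ∃ z ∈ Z, ∃ c : ℝ, aeval (Sum.elim (c • z.1) (c ^ 2 • z.2) : Var ι τ → ℝ)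
      (MvPolynomial.map (algebraMap K ℝ) f) ≠ 0 := by
    by_contra hcon
    push Not at hcon
    exact hf hcon
  obtain ⟨z, hz, c, hc⟩ := h1
  have h2 : ∃ c : ℝ, c ≠ 0 ∧ aeval (Sum.elim (c • z.1) (c ^ 2 • z.2) : Var ι τ → ℝ)
      (MvPolynomial.map (algebraMap K ℝ) f) ≠ 0 := by
    by_cases hc0 : c = 0
    · subst hc0
      have hcont := cone_cont (MvPolynomial.map (algebraMap K ℝ) f) z
      have hev := hcont.continuousAt.eventually_ne hc
      have hne : ∀ᶠ b in nhdsWithin (0 : ℝ) {0}ᶜ, b ≠ 0 ∧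
          aeval (Sum.elim (b • z.1) (b ^ 2 • z.2) : Var ι τ → ℝ)
            (MvPolynomial.map (algebraMap K ℝ) f) ≠ 0 :=
        Filter.Eventually.and self_mem_nhdsWithin (hev.filter_mono nhdsWithin_le_nhds)
      exact hne.exists
    · exact ⟨c, hc0, hc⟩
  obtain ⟨b, hb, hb'⟩ := h2
  refine ⟨Sum.elim (b • z.1) (b ^ 2 • z.2), ⟨z, hz, b, hb, rfl⟩, ?_⟩
  rwa [aeval_map_algebraMap] at hb'

private theorem cpts_zero {ι τ : Type} (Z : Set ((ι → ℝ) × (τ → ℝ))) (x : Var ι τ → ℝ)
    (hx : x ∈ cpts Z) (f : MvPolynomial (Var ι τ) ℝ) (hf : f ∈ coneIdeal Z) : aeval x f = 0 := by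
  obtain ⟨z, hz, c, -, rfl⟩ := hx
  exact hf z hz c

private theorem down_zero {ι τ : Type} (K : Subfield ℝ) (Z : Set ((ι → ℝ) × (τ → ℝ)))
    (x : Var ι τ → ℝ) (hx : x ∈ cpts Z) (f : MvPolynomial (Var ι τ) K)
    (hf : f ∈ down K (coneIdeal Z)) : aeval x f = 0 := by
  have h := cpts_zero Z x hx _ hf
  rwa [aeval_map_algebraMap] at h

/-- The scaling of the variables. -/
private noncomputable def scl {ι τ : Type} (c : ℝ) :
    MvPolynomial (Var ι τ) ℝ →ₐ[ℝ] MvPolynomial (Var ι τ) ℝ :=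
  bind₁ fun v => C (c⁻¹ ^ (wt v : ℕ)) * X v

private theorem aeval_scl {ι τ : Type} (c : ℝ) (x : Var ι τ → ℝ) (f : MvPolynomial (Var ι τ) ℝ) :
    aeval x (scl c f) = aeval (fun v => c⁻¹ ^ (wt v : ℕ) * x v) f := by
  rw [scl, aeval_bind₁]
  congr 2
  funext v
  simp

private theorem scl_mem {ι τ : Type} (Z : Set ((ι → ℝ) × (τ → ℝ))) (c : ℝ)
    (f : MvPolynomial (Var ι τ) ℝ) (hf : f ∈ coneIdeal Z) : scl c f ∈ coneIdeal Z := by
  intro z hz b
  rw [aeval_scl]
  have h := hf z hz (c⁻¹ * b)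
  rw [← h]
  congr 2
  funext v
  rcases v with i | t
  · simp [wt, mul_assoc]
  · simp [wt, mul_pow, mul_assoc]

private theorem pderiv_scl {ι τ : Type} (c : ℝ) (f : MvPolynomial (Var ι τ) ℝ) (a : Var ι τ) :
    pderiv a (scl c f) = C (c⁻¹ ^ (wt a : ℕ)) * scl c (pderiv a f) := by
  classical
  induction f using MvPolynomial.induction_on with
  | C r => simp [scl]
  | add p q hp hq => rw [map_add, map_add, hp, hq, map_add, map_add, mul_add]
  | mul_X p i hp =>
    have hX : scl c (X i : MvPolynomial (Var ι τ) ℝ) = C (c⁻¹ ^ (wt i : ℕ)) * X i := by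
      rw [scl, bind₁_X_right]
    rw [map_mul, pderiv_mul, hp, hX, pderiv_mul, pderiv_C, zero_mul, zero_add, pderiv_X, pderiv_mul,
      pderiv_X, map_add, map_mul, map_mul, hX]
    by_cases hia : a = i
    · subst hia
      rw [Pi.single_eq_same, map_one]
      ring
    · rw [Pi.single_eq_of_ne (fun h => hia h.symm), map_zero]
      ring

/-- The gradient at a point. -/
private noncomputable def gr {σ : Type} {R : Type} [CommRing R] [Algebra R ℝ] (x : σ → ℝ)
    (f : MvPolynomial σ R) : σ → ℝ := fun a => aeval x (pderiv a f)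

private theorem span_grad {σ : Type} (K : Subfield ℝ) (J : Ideal (MvPolynomial σ ℝ))
    (hK : DefOver K J) (x : σ → ℝ) (hx : ∀ f ∈ down K J, aeval x f = 0)
    (f : MvPolynomial σ ℝ) (hf : f ∈ J) :
    aeval x f = 0 ∧ gr x f ∈ Submodule.span ℝ {v | ∃ g ∈ down K J, v = gr x g} := by
  rw [hK] at hf
  change f ∈ Ideal.span _ at hf
  induction hf using Submodule.span_induction with
  | mem g hg =>
    obtain ⟨g, hg, rfl⟩ := hg
    constructor
    · rw [aeval_map_algebraMap]
      exact hx g hg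
    · apply Submodule.subset_span
      refine ⟨g, hg, ?_⟩
      funext a
      change aeval x (pderiv a (MvPolynomial.map (algebraMap K ℝ) g)) = aeval x (pderiv a g)
      rw [pderiv_map, aeval_map_algebraMap]
  | zero =>
    constructor
    · exact map_zero _
    · have : gr x (0 : MvPolynomial σ ℝ) = 0 := by
        funext a
        simp [gr]
      rw [this]
      exact Submodule.zero_mem _
  | add g h _ _ hg hh =>
    constructor
    · rw [map_add, hg.1, hh.1, add_zero]
    · have : gr x (g + h) = gr x g + gr x h := by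
        funext a
        simp [gr]
      rw [this]
      exact Submodule.add_mem _ hg.2 hh.2
  | smul r g _ hg =>
    constructor
    · rw [smul_eq_mul, map_mul, hg.1, mul_zero]
    · have : gr x (r • g) = aeval x r • gr x g := by
        funext a
        change aeval x (pderiv a (r * g)) = aeval x r * aeval x (pderiv a g)
        rw [pderiv_mul, map_add, map_mul, map_mul, hg.1, mul_zero, zero_add]
      rw [this]
      exact Submodule.smul_mem _ _ hg.2

private theorem choose_indep {σ : Type} [Fintype σ] {s : ℕ} (S : Set (σ → ℝ)) (v : Fin s → σ → ℝ)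
    (hv : LinearIndependent ℝ v) (hS : ∀ j, v j ∈ Submodule.span ℝ S) :
    ∃ u : Fin s → σ → ℝ, (∀ j, u j ∈ S) ∧ LinearIndependent ℝ u := by
  classical
  obtain ⟨b, hbS, hspan, hb⟩ := exists_linearIndependent ℝ S
  have hfin : b.Finite := hb.setFinite
  have : Fintype b := hfin.fintype
  have h1 : LinearIndependent ℝ (fun j => (⟨v j, by rw [hspan]; exact hS j⟩ : Submodule.span ℝ b)) := by
    apply LinearIndependent.of_comp (Submodule.span ℝ b).subtype
    exact hv
  have h2 := h1.fintype_card_le_finrank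
  have h3 : Module.finrank ℝ (Submodule.span ℝ b) ≤ Fintype.card b := by
    have := finrank_span_le_card (R := ℝ) b
    rwa [Set.toFinset_card] at this
  obtain ⟨e⟩ := Function.Embedding.nonempty_of_card_le (h2.trans h3)
  exact ⟨fun j => (e j : σ → ℝ), fun j => hbS (e j).2, hb.comp e e.injective⟩

theorem cone_gens {ι τ : Type} [Fintype ι] [Fintype τ] (K : Subfield ℝ) (Z : Set ((ι → ℝ) × (τ → ℝ)))
    (hK : DefOver K (coneIdeal Z)) {s : ℕ}
    (hreg : ∀ z ∈ Z, ∃ f : Fin s → MvPolynomial (Var ι τ) ℝ, (∀ j, f j ∈ coneIdeal Z) ∧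
      LinearIndependent ℝ (fun j : Fin s => fun a : Var ι τ => aeval (Sum.elim z.1 z.2 : Var ι τ → ℝ) (pderiv a (f j))))
    (x : Var ι τ → ℝ) (hx : x ∈ cpts Z) :
    ∃ g : Fin s → MvPolynomial (Var ι τ) K, (∀ i, g i ∈ down K (coneIdeal Z)) ∧
      LinearIndependent ℝ (fun i : Fin s => fun a : Var ι τ => aeval x (pderiv a (g i))) := by
  obtain ⟨z, hz, c, hc, hxe⟩ := id hx
  obtain ⟨f, hf, hli⟩ := hreg z hz
  have hpt : (fun v => c⁻¹ ^ (wt v : ℕ) * x v) = (Sum.elim z.1 z.2 : Var ι τ → ℝ) := by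
    funext v
    rw [hxe]
    rcases v with i | t
    · simp [wt, hc]
    · simp [wt, hc]
  let D : (Var ι τ → ℝ) →ₗ[ℝ] (Var ι τ → ℝ) :=
    LinearMap.pi fun a => (c⁻¹ ^ (wt a : ℕ)) • LinearMap.proj a
  have hD : LinearMap.ker D = ⊥ := by
    rw [LinearMap.ker_eq_bot']
    intro u hu
    funext a
    have h := congrFun hu a
    have h' : c⁻¹ ^ (wt a : ℕ) * u a = 0 := h
    exact (mul_eq_zero.1 h').resolve_left (pow_ne_zero _ (inv_ne_zero hc))
  have h1 := hli.map' D hD
  have h2 : (D ∘ fun j : Fin s => fun a : Var ι τ =>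
      aeval (Sum.elim z.1 z.2 : Var ι τ → ℝ) (pderiv a (f j))) = fun j => gr x (scl c (f j)) := by
    funext j a
    change c⁻¹ ^ (wt a : ℕ) * aeval (Sum.elim z.1 z.2 : Var ι τ → ℝ) (pderiv a (f j)) =
      aeval x (pderiv a (scl c (f j)))
    rw [pderiv_scl, map_mul, aeval_C, aeval_scl, hpt]
    rfl
  rw [h2] at h1
  obtain ⟨u, hu, hu'⟩ := choose_indep {v | ∃ g ∈ down K (coneIdeal Z), v = gr x g}
    (fun j => gr x (scl c (f j))) h1 fun j =>
      (span_grad K (coneIdeal Z) hK x (down_zero K Z x hx) _ (scl_mem Z c _ (hf j))).2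
  choose g hg hg' using hu
  refine ⟨g, hg, ?_⟩
  have h3 : u = fun i => gr x (g i) := funext hg'
  rw [h3] at hu'
  exact hu'

theorem cone_bound {ι τ : Type} [Fintype ι] [Fintype τ] (K : Subfield ℝ) (Z : Set ((ι → ℝ) × (τ → ℝ)))
    (hK : DefOver K (coneIdeal Z)) {s : ℕ}
    (hreg : ∀ z ∈ Z, ∃ f : Fin s → MvPolynomial (Var ι τ) ℝ, (∀ j, f j ∈ coneIdeal Z) ∧
      LinearIndependent ℝ (fun j : Fin s => fun a : Var ι τ => aeval (Sum.elim z.1 z.2 : Var ι τ → ℝ) (pderiv a (f j))))
    (w : Var ι τ → ℂ) (hw : ∀ f ∈ coneIdeal Z, aeval w f = 0) :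
    (mat K).eRk (Set.range w) + s ≤ (Fintype.card (Var ι τ) : ℕ∞) := by
  refine rad_bound K (down K (coneIdeal Z)) (cone_rad K Z) (cpts Z) (cone_detect K Z)
    (down_zero K Z) (cone_gens K Z hK hreg) w ?_
  intro f hf
  have h := hw _ hf
  rwa [aeval_map_algebraMap] at h

theorem cone_bound_strict {ι τ : Type} [Fintype ι] [Fintype τ] (K : Subfield ℝ) (Z : Set ((ι → ℝ) × (τ → ℝ)))
    (hK : DefOver K (coneIdeal Z)) {s : ℕ}
    (hreg : ∀ z ∈ Z, ∃ f : Fin s → MvPolynomial (Var ι τ) ℝ, (∀ j, f j ∈ coneIdeal Z) ∧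
      LinearIndependent ℝ (fun j : Fin s => fun a : Var ι τ => aeval (Sum.elim z.1 z.2 : Var ι τ → ℝ) (pderiv a (f j))))
    (I : Ideal (MvPolynomial (Var ι τ) ℝ)) (hIK : DefOver K I)
    (hI : ∀ f ∈ I, ∀ d, weightedHomogeneousComponent (wt : Var ι τ → ℕ) d f ∈ I)
    (hIZ : ∀ z ∈ Z, ∃ h ∈ I, aeval (Sum.elim z.1 z.2 : Var ι τ → ℝ) h ≠ 0)
    (w : Var ι τ → ℂ) (hw : ∀ f ∈ coneIdeal Z, aeval w f = 0) (hwI : ∀ f ∈ I, aeval w f = 0) :
    (mat K).eRk (Set.range w) + (s + 1 : ℕ) ≤ (Fintype.card (Var ι τ) : ℕ∞) := by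
  refine rad_bound_strict K (down K (coneIdeal Z)) (cone_rad K Z) (cpts Z) (cone_detect K Z)
    (down_zero K Z) (cone_gens K Z hK hreg) (down K I) ?_ w ?_ ?_
  · intro x hx
    obtain ⟨z, hz, c, hc, rfl⟩ := hx
    obtain ⟨h, hh, hne⟩ := ne_scale I hI z.1 z.2 (hIZ z hz) c hc
    by_contra hcon
    push Not at hcon
    exact hne (span_grad K I hIK _ hcon h hh).1
  · intro f hf
    have h := hw _ hf
    rwa [aeval_map_algebraMap] at h
  · intro f hf
    have h := hwI _ hf
    rwa [aeval_map_algebraMap] at h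

end Pool.Agent.Helper78.BPG
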