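import Pool.Agent.Helper78.BPG.Cl

/-!
PROJECT BP (MP_1cfd37_ag), block G, module G2: the counting lemma.

PROOF. Put `E = Q ∪ θ '' {j | j ∉ D}`. By hypothesis and `subset_cl`, `range θ ⊆ cl K E = (mat K).closure E`. Since `θ` is algebraically independent, `range θ`
is independent in the matroid and `θ` is injective, so `Fintype.card P = encard (range θ) = (mat K).eRk (range θ) ≤ (mat K).eRk (closure E) = (mat K).eRk E
≤ (mat K).eRk Q + encard (θ '' {j | j ∉ D}) ≤ n + (card P - card D)`. Use `Matroid.Indep.eRk_eq_encard`, `Matroid.eRk_closure_eq`, `Matroid.eRk_mono`,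
`Matroid.eRk_union_le_eRk_add_eRk` / `eRk_union_le_eRk_add_encard`, `Matroid.eRk_le_encard`. `θ '' {j | j ∉ D}` has at most `card P - card D` elements. Finish in `ℕ∞` (everything finite).
-/

set_option autoImplicit false

namespace Pool.Agent.Helper78.BPG

theorem count_le (K : Subfield ℝ) {P : Type} [Fintype P] (θ : P → ℂ) (hθ : AlgebraicIndependent K θ) (D : Finset P)
    (Q : Set ℂ) (n : ℕ) (hQ : (mat K).eRk Q ≤ n) (hD : ∀ i ∈ D, θ i ∈ cl K (Q ∪ θ '' {j | j ∉ D})) :
    D.card ≤ n := by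
  classical
  have hinj : Function.Injective θ := hθ.injective
  have hind : (mat K).Indep (Set.range θ) := hθ.coe_range
  have h1 : (mat K).eRk (Set.range θ) = (Fintype.card P : ℕ∞) := by
    rw [hind.eRk_eq_encard, ← Set.image_univ, hinj.encard_image, Set.encard_univ, ENat.card_eq_coe_fintype_card]
  have hsub : Set.range θ ⊆ (mat K).closure (Q ∪ θ '' {j | j ∉ D}) := by
    rintro _ ⟨i, rfl⟩
    rw [← cl_eq_closure]
    by_cases hi : i ∈ D
    · exact hD i hi
    · exact subset_cl K _ (Or.inr ⟨i, hi, rfl⟩)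
  have h2 : (mat K).eRk (Set.range θ) ≤ (mat K).eRk (Q ∪ θ '' {j | j ∉ D}) := by
    refine ((mat K).eRk_mono hsub).trans ?_
    rw [Matroid.eRk_closure_eq]
  have h3 : (mat K).eRk (Q ∪ θ '' {j | j ∉ D}) ≤ (mat K).eRk Q + (θ '' {j | j ∉ D}).encard :=
    Matroid.eRk_union_le_eRk_add_encard _ _ _
  have h4 : (θ '' {j | j ∉ D}).encard = ((Fintype.card P - D.card : ℕ) : ℕ∞) := by
    rw [hinj.encard_image]
    have : ({j | j ∉ D} : Set P) = ((Dᶜ : Finset P) : Set P) := by
      ext j
      simp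
    rw [this, Set.encard_coe_eq_coe_finsetCard, Finset.card_compl]
  have h5 : (Fintype.card P : ℕ∞) ≤ ((n + (Fintype.card P - D.card) : ℕ) : ℕ∞) := by
    rw [← h1]
    refine (h2.trans h3).trans ?_
    rw [h4]
    push_cast
    gcongr
  have h6 : Fintype.card P ≤ n + (Fintype.card P - D.card) := by exact_mod_cast h5
  have h7 : D.card ≤ Fintype.card P := Finset.card_le_univ D
  omega

/-- A union with finitely many more elements. -/
theorem eRk_union_le (K : Subfield ℝ) (Q : Set ℂ) (n : ℕ) (hQ : (mat K).eRk Q ≤ n) {A : Type} (S : Finset A) (x : A → ℂ) :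
    (mat K).eRk (Q ∪ x '' S) ≤ (n + S.card : ℕ) := by
  refine (Matroid.eRk_union_le_eRk_add_encard _ _ _).trans ?_
  have h1 : (x '' (S : Set A)).encard ≤ (S.card : ℕ∞) := by
    refine (Set.encard_image_le _ _).trans ?_
    rw [Set.encard_coe_eq_coe_finsetCard]
  push_cast
  exact add_le_add hQ h1

/-- Passing to a set in the closure. -/
theorem eRk_le_of_subset_cl (K : Subfield ℝ) (Q R : Set ℂ) (h : R ⊆ cl K Q) : (mat K).eRk R ≤ (mat K).eRk Q := by
  have h' : R ⊆ (mat K).closure Q := by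
    rw [← cl_eq_closure]
    exact h
  refine ((mat K).eRk_mono h').trans ?_
  rw [Matroid.eRk_closure_eq]

end Pool.Agent.Helper78.BPG
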