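import Pool.Agent.Helper78.BPG.Scale
import Pool.Agent.Helper78.BPG.Cl

/-!
PROJECT BP (MP_1cfd37_ag), block G, module G10: the parameters which are determined by a point of the section.

`F` is any subfield of `ℂ`.

PROOF. `skew_unit`: `1 + W` is injective for a real skew matrix `W`: if `v + W v = 0` then `0 = vᵀ v + vᵀ W v = |v|²` (`vᵀ W v = 0` because `Wᵀ = -W`), so `v = 0`; `Matrix.isUnit_iff...` / `Matrix.mulVec_injective_iff_isUnit`, `Matrix.isUnit_iff_isUnit_det`.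
`det_gamma`: `act γ y i = ∑_j γ_ij y_j = γ_(i,a0) + ∑_(j ≠ a0) γ_ij y_j`, because `y_(a0) = 1`; solve for `γ_(i,a0)` (`Finset.add_sum_erase`, subfield closure: `sub_mem`, `sum_mem`, `mul_mem`).
`exists_s0`: put `M = 1 + W` (over `ℂ`, invertible), `v = M⁻¹ u`, so `u = v + W v` and `act (cay W) u = (1 - W) M⁻¹ u = v - W v`; so `u + act (cay W) u = 2 v ≠ 0` since `u ≠ 0`.
   (`cay W = (1 - W) * (1 + W)⁻¹`. Over `ℂ`: `act A u = (A.map ofReal).mulVec u`, compatible with products: `act A (act B u) = act (A * B) u`, `act 1 u = u`. So with `v = act (1 + W)⁻¹ u`: `act (1 + W) v = u`, `act (1 - W) v = act (cay W) u`, and the sum of the two is `2 v`,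
   the difference `act (1 + W) v - act (1 - W) v = 2 act W v`.)
`det_W`: with `v` as above, `2 v_s = u_s + t_s ∈ F` and `2 (W v)_s = u_s - t_s ∈ F` where `t = act (cay W) u`. If `s = s0` then `W_(s,s0) = 0`. If `s ≠ s0`: `(W v)_s = W_(s,s0) v_(s0) + ∑_(t' ≠ s0) W_(s,t') v_(t')`, and `v_(s0) ≠ 0`; solve for `W_(s,s0)`.
`uR_mem`: `y_i y_j ∈ F`; `ε, G l i j ∈ K`, so `ρ_ab(γ) ∈ F`, `dl ∈ F`, and `(√z)^2` is `z` or `0`, so `√z ∈ cl K E` by `mem_cl_of_sq` as soon as `z ∈ cl K E`. Other components are `0`.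
`uR_ne`: `y i ≠ 0` for some `i`; the component `Sum.inl (Sum.inl (i, i))` is `√(ε/2) y_i²`.
-/

set_option autoImplicit false

namespace Pool.Agent.Helper78.BPG

open MvPolynomial Pool.Agent.Helper72.BP

theorem skew_unit {τ : Type} [Fintype τ] [DecidableEq τ] (W : Matrix τ τ ℝ) (hW : W.transpose = -W) :
    IsUnit (1 + W).det := by
  rw [← Matrix.isUnit_iff_isUnit_det, ← Matrix.mulVec_injective_iff_isUnit]
  intro v v' h
  have h0 : Matrix.mulVec (1 + W) (v - v') = 0 := by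
    rw [Matrix.mulVec_sub]
    exact sub_eq_zero.mpr h
  set x := v - v' with hx
  have h1 : x + Matrix.mulVec W x = 0 := by
    rw [Matrix.add_mulVec, Matrix.one_mulVec] at h0
    exact h0
  have h2 : x ⬝ᵥ Matrix.mulVec W x = 0 := by
    have h3 : x ⬝ᵥ Matrix.mulVec W x = -(x ⬝ᵥ Matrix.mulVec W x) := by
      calc x ⬝ᵥ Matrix.mulVec W x = Matrix.vecMul x W ⬝ᵥ x := by rw [Matrix.dotProduct_mulVec]
        _ = Matrix.mulVec W.transpose x ⬝ᵥ x := by rw [Matrix.mulVec_transpose]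
        _ = -(x ⬝ᵥ Matrix.mulVec W x) := by
          rw [hW, Matrix.neg_mulVec, neg_dotProduct, dotProduct_comm]
    linarith
  have h3 : x ⬝ᵥ x = 0 := by
    have h4 : x ⬝ᵥ (x + Matrix.mulVec W x) = 0 := by rw [h1, dotProduct_zero]
    rw [dotProduct_add, h2, add_zero] at h4
    exact h4
  have h4 : x = 0 := dotProduct_self_eq_zero.mp h3
  exact sub_eq_zero.mp h4

theorem det_gamma {ι ι' : Type} [Fintype ι] [DecidableEq ι] (F : Subfield ℂ) (γ : Matrix ι' ι ℝ) (y : ι → ℂ) (a0 : ι)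
    (hy : y a0 = 1) (i : ι') (hY : act γ y i ∈ F) (hyF : ∀ j, y j ∈ F) (hγ : ∀ j, j ≠ a0 → ((γ i j : ℝ) : ℂ) ∈ F) :
    ((γ i a0 : ℝ) : ℂ) ∈ F := by
  have h1 : act γ y i = ((γ i a0 : ℝ) : ℂ) + ∑ j ∈ Finset.univ.erase a0, ((γ i j : ℝ) : ℂ) * y j := by
    unfold act
    rw [← Finset.add_sum_erase _ _ (Finset.mem_univ a0), hy, mul_one]
    rfl
  have h2 : ((γ i a0 : ℝ) : ℂ) = act γ y i - ∑ j ∈ Finset.univ.erase a0, ((γ i j : ℝ) : ℂ) * y j := by
    rw [h1]; ring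
  rw [h2]
  refine sub_mem hY (sum_mem ?_)
  intro j hj
  exact mul_mem (hγ j (Finset.ne_of_mem_erase hj)) (hyF j)

private theorem act_mul' {ι τ σ : Type} [Fintype τ] [Fintype σ] (A : Matrix ι τ ℝ) (B : Matrix τ σ ℝ) (u : σ → ℂ) :
    act A (act B u) = act (A * B) u := by
  funext s
  unfold act
  simp only [Matrix.mul_apply, map_sum, map_mul, Finset.sum_mul, Finset.mul_sum]
  rw [Finset.sum_comm]
  refine Finset.sum_congr rfl fun x _ => Finset.sum_congr rfl fun y _ => ?_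
  ring

private theorem act_one' {τ : Type} [Fintype τ] [DecidableEq τ] (u : τ → ℂ) : act (1 : Matrix τ τ ℝ) u = u := by
  funext s
  unfold act
  rw [Finset.sum_eq_single s]
  · simp
  · intro b _ hb
    rw [Matrix.one_apply_ne hb.symm]
    simp
  · intro h
    exact absurd (Finset.mem_univ s) h

private theorem act_add' {ι τ : Type} [Fintype τ] (A B : Matrix ι τ ℝ) (u : τ → ℂ) (s : ι) :
    act A u s + act B u s = act (A + B) u s := by
  unfold act
  rw [← Finset.sum_add_distrib]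
  refine Finset.sum_congr rfl fun x _ => ?_
  rw [Matrix.add_apply, map_add]
  ring

private theorem act_sub' {ι τ : Type} [Fintype τ] (A B : Matrix ι τ ℝ) (u : τ → ℂ) (s : ι) :
    act A u s - act B u s = act (A - B) u s := by
  unfold act
  rw [← Finset.sum_sub_distrib]
  refine Finset.sum_congr rfl fun x _ => ?_
  rw [Matrix.sub_apply, map_sub]
  ring

private theorem act_smul' {ι τ : Type} [Fintype τ] (A : Matrix ι τ ℝ) (u : τ → ℂ) (s : ι) :
    act (A + A) u s = 2 * act A u s := by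
  rw [← act_add']
  ring

private theorem cay_act {τ : Type} [Fintype τ] [DecidableEq τ] (W : Matrix τ τ ℝ) (hW : W.transpose = -W) (u : τ → ℂ) :
    ∃ v : τ → ℂ, act (1 + W) v = u ∧ (∀ s, u s + act (cay W) u s = 2 * v s) ∧
      (∀ s, u s - act (cay W) u s = 2 * act W v s) := by
  have hu := skew_unit W hW
  refine ⟨act (1 + W)⁻¹ u, ?_, ?_, ?_⟩
  · rw [act_mul', Matrix.mul_nonsing_inv _ hu, act_one']
  · intro s
    have h1 : u s = act (1 + W) (act (1 + W)⁻¹ u) s := by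
      rw [act_mul', Matrix.mul_nonsing_inv _ hu, act_one']
    have h2 : act (cay W) u s = act (1 - W) (act (1 + W)⁻¹ u) s := by
      rw [act_mul']
      rfl
    rw [h2]
    nth_rewrite 1 [h1]
    rw [act_add']
    have h3 : (1 + W) + (1 - W) = (1 : Matrix τ τ ℝ) + 1 := by abel
    rw [h3, act_smul', act_one']
  · intro s
    have h1 : u s = act (1 + W) (act (1 + W)⁻¹ u) s := by
      rw [act_mul', Matrix.mul_nonsing_inv _ hu, act_one']
    have h2 : act (cay W) u s = act (1 - W) (act (1 + W)⁻¹ u) s := by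
      rw [act_mul']
      rfl
    rw [h2]
    nth_rewrite 1 [h1]
    rw [act_sub']
    have h3 : (1 + W) - (1 - W) = W + W := by abel
    rw [h3, act_smul']

theorem exists_s0 {τ : Type} [Fintype τ] [DecidableEq τ] (W : Matrix τ τ ℝ) (hW : W.transpose = -W) (u : τ → ℂ)
    (hu : u ≠ 0) : ∃ s0, u s0 + act (cay W) u s0 ≠ 0 := by
  by_contra hcon
  push Not at hcon
  obtain ⟨v, h1, h2, -⟩ := cay_act W hW u
  apply hu
  have hv : v = 0 := by
    funext s
    have h3 := h2 s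
    rw [hcon s] at h3
    have h4 : v s = 0 := by
      have h5 : (2 : ℂ) * v s = 0 := h3.symm
      rcases mul_eq_zero.mp h5 with h6 | h6
      · exact absurd h6 two_ne_zero
      · exact h6
    exact h4
  rw [← h1, hv]
  funext s
  unfold act
  simp

theorem det_W {τ : Type} [Fintype τ] [DecidableEq τ] (F : Subfield ℂ) (W : Matrix τ τ ℝ) (hW : W.transpose = -W)
    (u : τ → ℂ) (huF : ∀ s, u s ∈ F) (htF : ∀ s, act (cay W) u s ∈ F) (s0 : τ) (hs0 : u s0 + act (cay W) u s0 ≠ 0)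
    (hWF : ∀ s t, s ≠ s0 → t ≠ s0 → ((W s t : ℝ) : ℂ) ∈ F) (s : τ) : ((W s s0 : ℝ) : ℂ) ∈ F := by
  obtain ⟨v, h1, h2, h3⟩ := cay_act W hW u
  have h2F : (2 : ℂ) ∈ F := by
    have : (2 : ℂ) = ((2 : ℕ) : ℂ) := by norm_num
    rw [this]
    exact natCast_mem F 2
  have hvF : ∀ x, v x ∈ F := by
    intro x
    have h4 : v x = (u x + act (cay W) u x) / 2 := by
      rw [h2 x]
      ring
    rw [h4]
    exact div_mem (add_mem (huF x) (htF x)) h2F
  have hWv : ∀ x, act W v x ∈ F := by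
    intro x
    have h4 : act W v x = (u x - act (cay W) u x) / 2 := by
      rw [h3 x]
      ring
    rw [h4]
    exact div_mem (sub_mem (huF x) (htF x)) h2F
  have hv0 : v s0 ≠ 0 := by
    intro h
    apply hs0
    rw [h2 s0, h, mul_zero]
  by_cases hs : s = s0
  · subst hs
    have h4 : W s s = 0 := by
      have h5 : W.transpose s s = (-W) s s := by rw [hW]
      rw [Matrix.transpose_apply, Matrix.neg_apply] at h5
      linarith
    rw [h4, Complex.ofReal_zero]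
    exact zero_mem F
  · have h4 : act W v s = ((W s s0 : ℝ) : ℂ) * v s0 + ∑ x ∈ Finset.univ.erase s0, ((W s x : ℝ) : ℂ) * v x := by
      unfold act
      rw [← Finset.add_sum_erase _ _ (Finset.mem_univ s0)]
      rfl
    have h5 : ((W s s0 : ℝ) : ℂ) = (act W v s - ∑ x ∈ Finset.univ.erase s0, ((W s x : ℝ) : ℂ) * v x) / v s0 := by
      rw [h4]
      field_simp
      ring
    rw [h5]
    refine div_mem (sub_mem (hWv s) (sum_mem ?_)) (hvF s0)
    intro x hx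
    exact mul_mem (hWF s x hs (Finset.ne_of_mem_erase hx)) (hvF x)

private theorem sqrt_mem_cl (K : Subfield ℝ) (E : Set ℂ) (z : ℝ) (hz : ((z : ℝ) : ℂ) ∈ cl K E) :
    ((Real.sqrt z : ℝ) : ℂ) ∈ cl K E := by
  apply mem_cl_of_sq
  rw [← Complex.ofReal_pow]
  by_cases h : 0 ≤ z
  · rw [Real.sq_sqrt h]
    exact hz
  · rw [Real.sqrt_eq_zero_of_nonpos (le_of_lt (not_le.mp h))]
    simp only [ne_eq, OfNat.ofNat_ne_zero, not_false_eq_true, zero_pow, Complex.ofReal_zero]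
    exact zero_mem _

private theorem nat_real_mem (K : Subfield ℝ) (E : Set ℂ) (n : ℕ) : (((n : ℝ) : ℝ) : ℂ) ∈ cl K E := by
  have : (((n : ℝ) : ℝ) : ℂ) = (n : ℂ) := by norm_num
  rw [this]
  exact natCast_mem _ n

private theorem mulm (K : Subfield ℝ) (E : Set ℂ) (a b : ℝ) (ha : ((a : ℝ) : ℂ) ∈ cl K E)
    (hb : ((b : ℝ) : ℂ) ∈ cl K E) : (((a * b : ℝ)) : ℂ) ∈ cl K E := by
  rw [Complex.ofReal_mul]
  exact mul_mem ha hb

private theorem addm (K : Subfield ℝ) (E : Set ℂ) (a b : ℝ) (ha : ((a : ℝ) : ℂ) ∈ cl K E)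
    (hb : ((b : ℝ) : ℂ) ∈ cl K E) : (((a + b : ℝ)) : ℂ) ∈ cl K E := by
  rw [Complex.ofReal_add]
  exact add_mem ha hb

private theorem subm (K : Subfield ℝ) (E : Set ℂ) (a b : ℝ) (ha : ((a : ℝ) : ℂ) ∈ cl K E)
    (hb : ((b : ℝ) : ℂ) ∈ cl K E) : (((a - b : ℝ)) : ℂ) ∈ cl K E := by
  rw [Complex.ofReal_sub]
  exact sub_mem ha hb

private theorem divm (K : Subfield ℝ) (E : Set ℂ) (a b : ℝ) (ha : ((a : ℝ) : ℂ) ∈ cl K E)
    (hb : ((b : ℝ) : ℂ) ∈ cl K E) : (((a / b : ℝ)) : ℂ) ∈ cl K E := by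
  rw [Complex.ofReal_div]
  exact div_mem ha hb

private theorem summ (K : Subfield ℝ) (E : Set ℂ) {α : Type} (S : Finset α) (f : α → ℝ)
    (hf : ∀ x ∈ S, ((f x : ℝ) : ℂ) ∈ cl K E) : (((∑ x ∈ S, f x : ℝ)) : ℂ) ∈ cl K E := by
  rw [Complex.ofReal_sum]
  exact sum_mem hf

private theorem one_mem_real (K : Subfield ℝ) (E : Set ℂ) {ι : Type} [DecidableEq ι] (i j : ι) :
    (((1 : Matrix ι ι ℝ) i j : ℝ) : ℂ) ∈ cl K E := by
  by_cases h : i = j
  · subst h
    rw [Matrix.one_apply_eq, Complex.ofReal_one]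
    exact one_mem _
  · rw [Matrix.one_apply_ne h, Complex.ofReal_zero]
    exact zero_mem _

private theorem mat_mul_mem (K : Subfield ℝ) (E : Set ℂ) {ι τ σ : Type} [Fintype τ] (A : Matrix ι τ ℝ)
    (B : Matrix τ σ ℝ) (hA : ∀ i j, ((A i j : ℝ) : ℂ) ∈ cl K E) (hB : ∀ i j, ((B i j : ℝ) : ℂ) ∈ cl K E) :
    ∀ i j, (((A * B) i j : ℝ) : ℂ) ∈ cl K E := by
  intro i j
  rw [Matrix.mul_apply]
  exact summ K E _ _ fun x _ => mulm K E _ _ (hA i x) (hB x j)

private theorem rho_mem {ι : Type} [Fintype ι] [DecidableEq ι] {r : ℕ} (K : Subfield ℝ) (E : Set ℂ)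
    (G : Fin r → Matrix ι ι ℝ) (hG : ∀ l i j, G l i j ∈ K) (ε : ℝ) (hε : ε ∈ K)
    (γ : Matrix ι ι ℝ) (hγ : ∀ i j, ((γ i j : ℝ) : ℂ) ∈ cl K E) (a b : ι × ι) :
    ((rho G ε γ a b : ℝ) : ℂ) ∈ cl K E := by
  have hGc : ∀ l i j, ((G l i j : ℝ) : ℂ) ∈ cl K E := fun l i j => real_mem_cl K E _ (hG l i j)
  have hεc : ((ε : ℝ) : ℂ) ∈ cl K E := real_mem_cl K E _ hε
  have hγt : ∀ i j, ((γ.transpose i j : ℝ) : ℂ) ∈ cl K E := fun i j => hγ j i
  have h1 : ∀ i j, (((γ.transpose * γ) i j : ℝ) : ℂ) ∈ cl K E := mat_mul_mem K E _ _ hγt hγ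
  have h2 : ∀ l i j, (((γ.transpose * G l * γ) i j : ℝ) : ℂ) ∈ cl K E := fun l =>
    mat_mul_mem K E _ _ (mat_mul_mem K E _ _ hγt (hGc l)) hγ
  unfold rho
  refine addm K E _ _ (mulm K E _ _ hεc (subm K E _ _ (mulm K E _ _ (h1 _ _) (h1 _ _))
    (mulm K E _ _ (one_mem_real K E _ _) (one_mem_real K E _ _)))) (summ K E _ _ fun l _ => ?_)
  exact subm K E _ _ (mulm K E _ _ (hGc l _ _) (hGc l _ _)) (mulm K E _ _ (h2 l _ _) (h2 l _ _))

theorem uR_mem {p r : ℕ} {κ : Type} [Fintype κ] [DecidableEq κ] (K : Subfield ℝ) (E : Set ℂ)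
    (G : Fin r → Matrix (Ix p κ) (Ix p κ) ℝ) (hG : ∀ l i j, G l i j ∈ K) (ε : ℝ) (hε : ε ∈ K)
    (γ : Matrix (Ix p κ) (Ix p κ) ℝ) (hγ : ∀ i j, ((γ i j : ℝ) : ℂ) ∈ cl K E)
    (y : Ix p κ → ℂ) (hy : ∀ i, y i ∈ cl K E) (s : Tx p r κ) : uR G ε γ y s ∈ cl K E := by
  have hεc : ((ε : ℝ) : ℂ) ∈ cl K E := real_mem_cl K E _ hε
  have hmon : ∀ a : Ix p κ × Ix p κ, mon y a ∈ cl K E := fun a => mul_mem (hy a.1) (hy a.2)
  have h2 : (((2 : ℝ) : ℝ) : ℂ) ∈ cl K E := nat_real_mem K E 2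
  have h4 : (((4 : ℝ) : ℝ) : ℂ) ∈ cl K E := nat_real_mem K E 4
  have hdl : ((dl p κ ε : ℝ) : ℂ) ∈ cl K E := by
    unfold dl
    refine divm K E _ _ hεc (mulm K E _ _ (nat_real_mem K E 8) (nat_real_mem K E _))
  have hrho := rho_mem K E G hG ε hε γ hγ
  rcases s with j | s
  · have hsq : ((sq G ε γ j : ℝ) : ℂ) ∈ cl K E := by
      rcases j with a | ab | ab
      · exact sqrt_mem_cl K E _ (divm K E _ _ hεc h2)
      · exact sqrt_mem_cl K E _ (addm K E _ _ hdl (divm K E _ _ (hrho _ _) h4))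
      · exact sqrt_mem_cl K E _ (subm K E _ _ hdl (divm K E _ _ (hrho _ _) h4))
    have hnj : nj y j ∈ cl K E := by
      rcases j with a | ab | ab
      · exact hmon a
      · exact add_mem (hmon _) (hmon _)
      · exact sub_mem (hmon _) (hmon _)
    exact mul_mem hsq hnj
  · exact zero_mem _

theorem uR_ne {p r : ℕ} {κ : Type} [Fintype κ] [DecidableEq κ]
    (G : Fin r → Matrix (Ix p κ) (Ix p κ) ℝ) (ε : ℝ) (hε : 0 < ε)
    (γ : Matrix (Ix p κ) (Ix p κ) ℝ) (y : Ix p κ → ℂ) (hy : y ≠ 0) : (uR G ε γ y : Tx p r κ → ℂ) ≠ 0 := by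
  intro h
  apply hy
  funext i
  have h1 : (uR G ε γ y : Tx p r κ → ℂ) (Sum.inl (Sum.inl (i, i))) = 0 := by rw [h]; rfl
  have h2 : ((Real.sqrt (ε / 2) : ℝ) : ℂ) * (y i * y i) = 0 := h1
  rcases mul_eq_zero.mp h2 with h3 | h3
  · have h4 : Real.sqrt (ε / 2) = 0 := by exact_mod_cast h3
    have h5 : 0 < Real.sqrt (ε / 2) := Real.sqrt_pos.mpr (by linarith)
    linarith
  · have h4 : y i = 0 := by
      rcases mul_eq_zero.mp h3 with h5 | h5 <;> exact h5
    exact h4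

end Pool.Agent.Helper78.BPG
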