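import Mathlib

/-!
PROJECT BP (MP_1cfd37_ag), block G, module G3: algebraically independent real parameters near any base point.

PROOF. Induction on the finite type `P` (`Finite.induction_empty_option`; transport along equivalences by `AlgebraicIndependent.comp` / `algebraicIndependent_equiv`).
`P` empty: any function; algebraic independence of the empty family is injectivity of `K → ℝ` (`algebraicIndependent_empty_type_iff`).
Step `Option P`: take `θ` for `b ∘ some`. `A = Algebra.adjoin K (range θ)` is countable (`K` countable, `range θ` finite: e.g. the image of the countable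
`MvPolynomial P K` under `aeval θ`, `Algebra.adjoin_range_eq_range_aeval`; `MvPolynomial` over countable data is countable), so `{x : ℝ | IsAlgebraic A x}` is countable
(`Algebraic.countable A ℝ`), whereas the open interval `(b none - δ, b none + δ)` is not (`Cardinal.mk_Ioo_real` / `not_countable`); choose a point `a` of it transcendental over `A`;
`AlgebraicIndependent.option_iff_transcendental`.
Second statement: map by the injective `K`-algebra map `ℝ → ℂ` (`AlgebraicIndependent.map'`).
-/

set_option autoImplicit false

namespace Pool.Agent.Helper78.BPG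

private theorem countable_adjoin {P : Type} [Finite P] (K : Subfield ℝ) [Countable K] (θ : P → ℝ) :
    Countable (Algebra.adjoin K (Set.range θ)) := by
  rw [Algebra.adjoin_range_eq_range_aeval]
  have h : Countable (MvPolynomial P K) := by
    rw [← Cardinal.mk_le_aleph0_iff]
    refine MvPolynomial.cardinalMk_le_max_lift.trans ?_
    simp only [sup_le_iff, le_refl, and_true]
    constructor
    · rw [Cardinal.lift_le_aleph0, Cardinal.mk_le_aleph0_iff]
      infer_instance
    · rw [Cardinal.lift_le_aleph0, Cardinal.mk_le_aleph0_iff]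
      infer_instance
  exact (AlgHom.rangeRestrict_surjective (MvPolynomial.aeval (R := K) θ)).countable

private theorem exists_transc {P : Type} [Finite P] (K : Subfield ℝ) [Countable K] (θ : P → ℝ)
    (c δ : ℝ) (hδ : 0 < δ) :
    ∃ a : ℝ, |a - c| < δ ∧ Transcendental (Algebra.adjoin K (Set.range θ)) a := by
  have h1 := countable_adjoin K θ
  have h2 : Set.Countable {x : ℝ | IsAlgebraic (Algebra.adjoin K (Set.range θ)) x} :=
    Algebraic.countable _ _
  have h3 : ¬ (Set.Ioo (c - δ) (c + δ)).Countable := by
    intro h
    have h4 := h.le_aleph0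
    rw [Cardinal.mk_Ioo_real (by linarith)] at h4
    exact absurd h4 (not_le.2 Cardinal.aleph0_lt_continuum)
  have h5 : ¬ Set.Ioo (c - δ) (c + δ) ⊆
      {x : ℝ | IsAlgebraic (Algebra.adjoin K (Set.range θ)) x} := fun h => h3 (h2.mono h)
  obtain ⟨a, ha, ha'⟩ := Set.not_subset.1 h5
  refine ⟨a, ?_, ha'⟩
  rw [abs_lt]
  constructor <;> linarith [ha.1, ha.2]

theorem exists_near_real {P : Type} [Finite P] (K : Subfield ℝ) [Countable K] (b : P → ℝ) (δ : ℝ) (hδ : 0 < δ) :
    ∃ θ : P → ℝ, (∀ i, |θ i - b i| < δ) ∧ AlgebraicIndependent K θ := by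
  revert b
  induction P using Finite.induction_empty_option with
  | of_equiv e ih =>
    intro b
    obtain ⟨θ, h1, h2⟩ := ih (b ∘ e)
    refine ⟨θ ∘ e.symm, fun i => ?_, h2.comp _ e.symm.injective⟩
    have h3 := h1 (e.symm i)
    simpa using h3
  | h_empty =>
    intro b
    refine ⟨b, fun i => i.elim, ?_⟩
    rw [algebraicIndependent_empty_type_iff]
    exact (algebraMap K ℝ).injective
  | h_option ih =>
    intro b
    obtain ⟨θ, h1, h2⟩ := ih (b ∘ some)
    obtain ⟨a, h3, h4⟩ := exists_transc K θ (b none) δ hδ
    refine ⟨fun o => o.elim a θ, fun i => ?_, (h2.option_iff_transcendental a).2 h4⟩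
    cases i with
    | none => exact h3
    | some i => exact h1 i

theorem exists_near {P : Type} [Finite P] (K : Subfield ℝ) [Countable K] (b : P → ℝ) (δ : ℝ) (hδ : 0 < δ) :
    ∃ θ : P → ℝ, (∀ i, |θ i - b i| < δ) ∧ AlgebraicIndependent K (fun i => (θ i : ℂ)) := by
  obtain ⟨θ, h1, h2⟩ := exists_near_real K b δ hδ
  refine ⟨θ, h1, ?_⟩
  have h3 := h2.map' (f := ((Algebra.ofId ℝ ℂ).restrictScalars K)) (by
    intro x y hxy
    exact Complex.ofReal_injective hxy)
  exact h3

end Pool.Agent.Helper78.BPG
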