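import Mathlib

/-!
PROJECT BP (MP_1cfd37_ag), block G, module G5: the Jacobian criterion in characteristic 0.

PROOF of `jac`. Put `F = IntermediateField.adjoin K (ξ '' (Set.range c)ᶜ)` and `E = IntermediateField.adjoin F (Set.range (fun j => ξ (c j)))` (an intermediate field of `L/F`, finitely generated, hence
`Algebra.EssFiniteType F E`). Let `D = KaehlerDifferential.D F E : E → Ω`. In `Ω` (an `E`-module): apply `D` to `aeval ξ' (g i) = 0` (`ξ'` = `ξ` with values in `E`: all `ξ a` lie in `E`);
chain rule for derivations (`Derivation.leibniz`, or `MvPolynomial.mkDerivation` / induction on the polynomial): `∑_a aeval ξ' (pderiv a (g i)) • D (ξ' a) = 0`, and `D (ξ' a) = 0` for `a` outside the range of `c`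
(`ξ' a` comes from `F`). (`c` is injective because otherwise two columns agree and the determinant vanishes.) So the vector `(D (ξ' (c j)))_j` is killed by an invertible matrix, hence `D (ξ' (c j)) = 0` for all `j`.
A derivation over `F` vanishing on generators of the field `E` vanishes (the set `{e | D e = 0}` is a subfield: use `Derivation.leibniz_inv` or `eqOn_adjoin`-type lemmas), so `Ω = 0` (it is spanned by the `D e`),
i.e. `Algebra.FormallyUnramified F E`, and by `Algebra.FormallyUnramified.iff_isSeparable` `E/F` is separable, in particular algebraic.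
Any other proof is fine (for example: extend `∂/∂T` for a transcendental `ξ (c j)`).

`trdeg_le_jac`: with `L = IntermediateField.adjoin K (range ξ)` (hypothesis `htop`), `L` is algebraic over `K(ξ '' (range c)ᶜ)`, a set with at most `card σ - s` elements (`c` injective), so
`Algebra.trdeg K L ≤ card σ - s` (`Algebra.IsAlgebraic.trdeg_le_cardinalMk` for `Algebra.adjoin`).
-/

set_option autoImplicit false

namespace Pool.Agent.Helper78.BPG

open MvPolynomial

private lemma jac_inj {K L : Type} [Field K] [CharZero K] [Field L] [Algebra K L] {σ : Type} [Fintype σ]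
    (ξ : σ → L) {s : ℕ} (g : Fin s → MvPolynomial σ K) (c : Fin s → σ)
    (hdet : (Matrix.of fun i j : Fin s => aeval ξ (pderiv (c j) (g i))).det ≠ 0) :
    Function.Injective c := by
  intro a b hab
  by_contra hne
  exact hdet (Matrix.det_zero_of_column_eq hne (fun k => by simp [hab]))

private lemma deriv_aeval {K F E Ω : Type} [Field K] [Field F] [Field E] [Algebra K F] [Algebra F E]
    [Algebra K E] [IsScalarTower K F E] [AddCommGroup Ω] [Module E Ω] [Module F Ω]
    (D : Derivation F E Ω) {σ : Type} [Fintype σ] [DecidableEq σ] (x : σ → E) (p : MvPolynomial σ K) :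
    D (aeval x p) = ∑ a, aeval x (pderiv a p) • D (x a) := by
  induction p using MvPolynomial.induction_on with
  | C r =>
    rw [aeval_C, IsScalarTower.algebraMap_apply K F E, Derivation.map_algebraMap]
    symm
    apply Finset.sum_eq_zero
    intro a _
    simp
  | add p q hp hq =>
    rw [map_add, map_add, hp, hq, ← Finset.sum_add_distrib]
    apply Finset.sum_congr rfl
    intro a _
    rw [map_add, map_add, add_smul]
  | mul_X p i hp =>
    rw [map_mul, Derivation.leibniz, hp, aeval_X]
    have h : ∀ a, aeval x (pderiv a (p * X i)) • D (x a)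
        = (if a = i then aeval x p • D (x i) else 0) + x i • (aeval x (pderiv a p) • D (x a)) := by
      intro a
      rw [Derivation.leibniz]
      by_cases hai : a = i
      · subst hai
        rw [pderiv_X_self, if_pos rfl]
        simp only [smul_eq_mul, mul_one, map_add, map_mul, aeval_X]
        rw [add_smul, mul_smul]
      · rw [pderiv_X_of_ne (fun h => hai h.symm), if_neg hai]
        simp only [smul_eq_mul, mul_zero, map_mul, aeval_X, zero_add]
        rw [mul_smul]
    rw [Finset.sum_congr rfl (fun a _ => h a), Finset.sum_add_distrib, Finset.sum_ite_eq' Finset.univ i,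
      if_pos (Finset.mem_univ i), Finset.smul_sum]

open scoped IntermediateField.algebraAdjoinAdjoin in
private lemma alg_adjoin {K L : Type} [Field K] [Field L] [Algebra K L] (S0 : Set L)
    (h : Algebra.IsAlgebraic (IntermediateField.adjoin K S0) L) :
    Algebra.IsAlgebraic (Algebra.adjoin K S0) L :=
  Algebra.IsAlgebraic.trans (Algebra.adjoin K S0) (IntermediateField.adjoin K S0) L

private lemma kill {E Ω : Type} [Field E] [AddCommGroup Ω] [Module E Ω] {s : ℕ}
    (M : Matrix (Fin s) (Fin s) E) (hM : M.det ≠ 0) (v : Fin s → Ω)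
    (h : ∀ i, ∑ j, M i j • v j = 0) (k : Fin s) : v k = 0 := by
  have h1 : ∑ i, M.adjugate k i • ∑ j, M i j • v j = 0 := by
    apply Finset.sum_eq_zero
    intro i _
    rw [h i, smul_zero]
  have h2 : ∑ i, M.adjugate k i • ∑ j, M i j • v j = M.det • v k := by
    calc ∑ i, M.adjugate k i • ∑ j, M i j • v j
        = ∑ i, ∑ j, (M.adjugate k i * M i j) • v j := by
          apply Finset.sum_congr rfl
          intro i _
          rw [Finset.smul_sum]
          apply Finset.sum_congr rfl
          intro j _
          rw [mul_smul]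
      _ = ∑ j, (∑ i, M.adjugate k i * M i j) • v j := by
          rw [Finset.sum_comm]
          apply Finset.sum_congr rfl
          intro j _
          rw [Finset.sum_smul]
      _ = ∑ j, ((M.adjugate * M) k j) • v j := by
          apply Finset.sum_congr rfl
          intro j _
          rw [Matrix.mul_apply]
      _ = M.det • v k := by
          rw [Matrix.adjugate_mul]
          rw [Finset.sum_eq_single k]
          · simp
          · intro j _ hj
            simp [Matrix.one_apply_ne (Ne.symm hj)]
          · intro hk
            exact absurd (Finset.mem_univ k) hk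
  rw [h2] at h1
  exact (smul_eq_zero.mp h1).resolve_left hM

theorem jac {K L : Type} [Field K] [CharZero K] [Field L] [Algebra K L] {σ : Type} [Fintype σ]
    (ξ : σ → L) {s : ℕ} (g : Fin s → MvPolynomial σ K) (hg : ∀ i, aeval ξ (g i) = 0) (c : Fin s → σ)
    (hdet : (Matrix.of fun i j : Fin s => aeval ξ (pderiv (c j) (g i))).det ≠ 0) (j : Fin s) :
    IsAlgebraic (IntermediateField.adjoin K (ξ '' (Set.range c)ᶜ)) (ξ (c j)) := by
  classical
  have hc := jac_inj ξ g c hdet
  let F : IntermediateField K L := IntermediateField.adjoin K (ξ '' (Set.range c)ᶜ)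
  let E : IntermediateField F L := IntermediateField.adjoin F (Set.range (fun j => ξ (c j)))
  have hmem : ∀ a, ξ a ∈ E := by
    intro a
    by_cases ha : a ∈ Set.range c
    · obtain ⟨j, rfl⟩ := ha
      exact IntermediateField.subset_adjoin _ _ ⟨j, rfl⟩
    · exact E.algebraMap_mem ⟨ξ a, IntermediateField.subset_adjoin _ _ ⟨a, ha, rfl⟩⟩
  let x : σ → E := fun a => ⟨ξ a, hmem a⟩
  have hKEL : IsScalarTower K E L := IsScalarTower.of_algebraMap_eq (fun _ => rfl)
  have hx : ∀ p : MvPolynomial σ K, ((aeval x p : E) : L) = aeval ξ p := by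
    intro p
    have h := MvPolynomial.aeval_algebraMap_apply (R := K) (A := E) L x p
    exact h.symm
  have hx0 : ∀ i, aeval x (g i) = 0 := by
    intro i
    apply Subtype.ext
    rw [hx, hg i]
    rfl
  let D := KaehlerDifferential.D F E
  have hD0 : ∀ a, a ∉ Set.range c → D (x a) = 0 := by
    intro a ha
    have : x a = algebraMap F E ⟨ξ a, IntermediateField.subset_adjoin _ _ ⟨a, ha, rfl⟩⟩ := rfl
    rw [this]
    exact Derivation.map_algebraMap _ _
  have hsum : ∀ i, ∑ j, aeval x (pderiv (c j) (g i)) • D (x (c j)) = 0 := by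
    intro i
    have h1 := deriv_aeval D x (g i)
    rw [hx0, map_zero] at h1
    have h2 : ∑ a, aeval x (pderiv a (g i)) • D (x a)
        = ∑ a ∈ Finset.univ.image c, aeval x (pderiv a (g i)) • D (x a) := by
      symm
      apply Finset.sum_subset (Finset.subset_univ _)
      intro a _ ha
      rw [hD0 a (fun ⟨j, hj⟩ => ha (Finset.mem_image.mpr ⟨j, Finset.mem_univ j, hj⟩)), smul_zero]
    rw [h2, Finset.sum_image (fun a _ b _ h => hc h)] at h1
    exact h1.symm
  have hM : (Matrix.of fun i j : Fin s => aeval x (pderiv (c j) (g i))).det ≠ 0 := by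
    intro h0
    apply hdet
    have h1 : (Matrix.of fun i j : Fin s => aeval ξ (pderiv (c j) (g i)))
        = (algebraMap E L).mapMatrix (Matrix.of fun i j : Fin s => aeval x (pderiv (c j) (g i))) := by
      ext i j
      exact (hx _).symm
    rw [h1, ← RingHom.map_det, h0, map_zero]
  have hv : ∀ k, D (x (c k)) = 0 :=
    kill _ hM (fun j => D (x (c j))) (fun i => hsum i)
  have hDe : ∀ e : E, D e = 0 := by
    rintro ⟨e, he⟩
    refine IntermediateField.adjoin_induction F (p := fun e he => D ⟨e, he⟩ = 0)
      ?_ ?_ ?_ ?_ ?_ he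
    · rintro _ ⟨j, rfl⟩
      exact hv j
    · intro y
      exact Derivation.map_algebraMap D y
    · intro y z hy hz h1 h2
      have := D.map_add ⟨y, hy⟩ ⟨z, hz⟩
      rw [h1, h2, add_zero] at this
      exact this
    · intro y hy h1
      have := Derivation.leibniz_inv D ⟨y, hy⟩
      rw [h1, smul_zero] at this
      exact this
    · intro y z hy hz h1 h2
      have := D.leibniz ⟨y, hy⟩ ⟨z, hz⟩
      rw [h1, h2, smul_zero, smul_zero, add_zero] at this
      exact this
  have hsub : Subsingleton (KaehlerDifferential F E) := by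
    have h1 := KaehlerDifferential.span_range_derivation F E
    have h2 : Set.range (KaehlerDifferential.D F E) ⊆ {0} := by
      rintro _ ⟨e, rfl⟩
      exact hDe e
    have h3 : (⊤ : Submodule E (KaehlerDifferential F E)) ≤ ⊥ := by
      rw [← h1]
      exact (Submodule.span_mono h2).trans (by simp)
    exact (Submodule.subsingleton_iff E).mp ⟨fun a b => by
      have ha : a ≤ ⊥ := le_top.trans h3
      have hb : b ≤ ⊥ := le_top.trans h3
      rw [le_bot_iff.mp ha, le_bot_iff.mp hb]⟩
  have hu : Algebra.FormallyUnramified F E := ⟨hsub⟩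
  have : Algebra.EssFiniteType F E := by
    rw [IntermediateField.essFiniteType_iff]
    exact IntermediateField.fg_adjoin_of_finite (Set.finite_range _)
  have : Algebra.IsSeparable F E := Algebra.FormallyUnramified.isSeparable F E
  have h1 : IsAlgebraic F (x (c j)) := Algebra.IsAlgebraic.isAlgebraic _
  have h2 : IsAlgebraic F (algebraMap E L (x (c j))) := h1.algebraMap
  exact h2

theorem trdeg_le_jac {K L : Type} [Field K] [CharZero K] [Field L] [Algebra K L] {σ : Type} [Fintype σ]
    (ξ : σ → L) (htop : IntermediateField.adjoin K (Set.range ξ) = ⊤) {s : ℕ}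
    (g : Fin s → MvPolynomial σ K) (hg : ∀ i, aeval ξ (g i) = 0) (c : Fin s → σ)
    (hdet : (Matrix.of fun i j : Fin s => aeval ξ (pderiv (c j) (g i))).det ≠ 0) :
    Algebra.trdeg K L + s ≤ (Fintype.card σ : Cardinal) := by
  classical
  have hc := jac_inj ξ g c hdet
  let S0 : Set L := ξ '' (Set.range c)ᶜ
  let F : IntermediateField K L := IntermediateField.adjoin K S0
  let E : IntermediateField F L := IntermediateField.adjoin F (Set.range (fun j => ξ (c j)))
  have hE : ∀ y : L, y ∈ E := by
    have h1 : IntermediateField.adjoin K (Set.range ξ) ≤ E.restrictScalars K := by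
      rw [IntermediateField.adjoin_le_iff]
      rintro _ ⟨a, rfl⟩
      by_cases ha : a ∈ Set.range c
      · obtain ⟨j, rfl⟩ := ha
        exact IntermediateField.subset_adjoin F (Set.range (fun j => ξ (c j))) ⟨j, rfl⟩
      · exact E.algebraMap_mem ⟨ξ a, IntermediateField.subset_adjoin K S0 ⟨a, ha, rfl⟩⟩
    intro y
    have h2 : y ∈ IntermediateField.adjoin K (Set.range ξ) := by
      rw [htop]
      trivial
    exact h1 h2
  have hEalg : Algebra.IsAlgebraic F E := by
    apply IntermediateField.isAlgebraic_adjoin
    rintro _ ⟨j, rfl⟩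
    exact (jac ξ g hg c hdet j).isIntegral
  have hFL : Algebra.IsAlgebraic F L := by
    constructor
    intro y
    have h1 : IsAlgebraic F (⟨y, hE y⟩ : E) := Algebra.IsAlgebraic.isAlgebraic _
    have h2 : IsAlgebraic F (algebraMap E L ⟨y, hE y⟩) := h1.algebraMap
    exact h2
  have hAL : Algebra.IsAlgebraic (Algebra.adjoin K S0) L := alg_adjoin S0 hFL
  have h1 : Algebra.trdeg K L ≤ Cardinal.mk S0 :=
    Algebra.IsAlgebraic.trdeg_le_cardinalMk K S0
  have h2 : Cardinal.mk S0 ≤ Cardinal.mk ((Set.range c)ᶜ : Set σ) := Cardinal.mk_image_le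
  have h3 : Cardinal.mk (Set.range c) = (s : Cardinal) := by
    rw [Cardinal.mk_range_eq c hc, Cardinal.mk_fin]
  have h4 : Cardinal.mk (Set.range c) + Cardinal.mk ((Set.range c)ᶜ : Set σ) = Cardinal.mk σ :=
    Cardinal.mk_sum_compl _
  rw [h3] at h4
  calc Algebra.trdeg K L + s ≤ Cardinal.mk ((Set.range c)ᶜ : Set σ) + s :=
        add_le_add (h1.trans h2) le_rfl
    _ = (Fintype.card σ : Cardinal) := by
        rw [add_comm, h4, Cardinal.mk_fintype]

end Pool.Agent.Helper78.BPG
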