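import Mathlib

/-!
PROJECT BP (MP_1cfd37_ag), block G, module G11: skew matrices with given entries above the diagonal.

`e : τ ≃ Fin k` orders the index set; `Pr k` is the type of the pairs `s < t` in `Fin k`.

PROOF. Unfold; `lt_asymm`, `lt_trichotomy`. `card_pairs`: the map `t ↦ (min t a, max t a)` is a bijection of `{t | t ≠ a}` onto the set of the pairs which contain `a` (`Finset.card_bij`, or `Finset.card_nbij'` with the inverse `(s, t) ↦ if s = a then t else s`), and
`{t | t ≠ a}` has `k - 1` elements.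
-/

set_option autoImplicit false

namespace Pool.Agent.Helper78.BPG

/-- The pairs `s < t`. -/
abbrev Pr (k : ℕ) : Type := {st : Fin k × Fin k // st.1 < st.2}

/-- The skew matrix with the given entries above the diagonal. -/
def wmat {τ : Type} {k : ℕ} (e : τ ≃ Fin k) (ω : Pr k → ℝ) : Matrix τ τ ℝ := fun s t =>
  if h : e s < e t then ω ⟨(e s, e t), h⟩ else if h : e t < e s then -ω ⟨(e t, e s), h⟩ else 0

theorem wmat_skew {τ : Type} {k : ℕ} (e : τ ≃ Fin k) (ω : Pr k → ℝ) : (wmat e ω).transpose = -wmat e ω := by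
  ext s t
  simp only [Matrix.transpose_apply, Matrix.neg_apply, wmat]
  rcases lt_trichotomy (e s) (e t) with h | h | h
  · simp [h, h.not_gt]
  · simp [h]
  · simp [h, h.not_gt]

theorem wmat_small {τ : Type} {k : ℕ} (e : τ ≃ Fin k) (ω : Pr k → ℝ) (δ : ℝ) (hδ : 0 < δ) (h : ∀ x, |ω x| < δ) (s t : τ) :
    |wmat e ω s t| < δ := by
  unfold wmat
  split_ifs with h1 h2
  · exact h _
  · rw [abs_neg]; exact h _
  · simpa using hδ

/-- The entries as matrix entries. -/
theorem wmat_entry {τ : Type} {k : ℕ} (e : τ ≃ Fin k) (ω : Pr k → ℝ) (x : Pr k) :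
    ω x = wmat e ω (e.symm x.1.1) (e.symm x.1.2) := by
  have hx := x.2
  simp [wmat, hx]

/-- The matrix entries away from `s0` lie in every field which contains the parameters of the pairs away from `s0`. -/
theorem wmat_mem {τ : Type} {k : ℕ} (e : τ ≃ Fin k) (ω : Pr k → ℝ) (F : Subfield ℂ) (s0 : τ)
    (h : ∀ x : Pr k, x.1.1 ≠ e s0 → x.1.2 ≠ e s0 → ((ω x : ℝ) : ℂ) ∈ F) (s t : τ) (hs : s ≠ s0) (ht : t ≠ s0) :
    ((wmat e ω s t : ℝ) : ℂ) ∈ F := by
  have hs' : e s ≠ e s0 := fun hh => hs (e.injective hh)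
  have ht' : e t ≠ e s0 := fun hh => ht (e.injective hh)
  unfold wmat
  split_ifs with h1 h2
  · exact h _ hs' ht'
  · rw [Complex.ofReal_neg]; exact F.neg_mem (h _ ht' hs')
  · simp

/-- If a field contains the column `s0` of the matrix then it contains the parameters of the pairs through `s0`. -/
theorem mem_of_col {τ : Type} {k : ℕ} (e : τ ≃ Fin k) (ω : Pr k → ℝ) (F : Subfield ℂ) (s0 : τ)
    (h : ∀ s, ((wmat e ω s s0 : ℝ) : ℂ) ∈ F) (x : Pr k) (hx : x.1.1 = e s0 ∨ x.1.2 = e s0) : ((ω x : ℝ) : ℂ) ∈ F := by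
  have hlt := x.2
  rcases hx with hx | hx
  · have h1 := h (e.symm x.1.2)
    have h2 : wmat e ω (e.symm x.1.2) s0 = - ω x := by
      have h3 : wmat e ω (e.symm x.1.2) s0 = -(wmat e ω).transpose (e.symm x.1.2) s0 := by
        rw [wmat_skew]; simp
      rw [h3, Matrix.transpose_apply]
      have h4 : s0 = e.symm x.1.1 := by rw [hx]; simp
      rw [h4, ← wmat_entry e ω x]
    rw [h2, Complex.ofReal_neg] at h1
    have := F.neg_mem h1
    simpa using this
  · have h1 := h (e.symm x.1.1)
    have h4 : s0 = e.symm x.1.2 := by rw [hx]; simp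
    rw [h4, ← wmat_entry e ω x] at h1
    exact h1

theorem card_pairs {k : ℕ} (a : Fin k) :
    (Finset.univ.filter (fun x : Pr k => x.1.1 = a ∨ x.1.2 = a)).card = k - 1 := by
  have h1 : (Finset.univ.filter (fun t : Fin k => t ≠ a)).card = k - 1 := by
    rw [Finset.filter_ne']
    rw [Finset.card_erase_of_mem (Finset.mem_univ a)]
    simp
  rw [← h1]
  symm
  refine Finset.card_bij (fun t ht => if h : t < a then ⟨(t, a), h⟩ else ⟨(a, t), lt_of_le_of_ne (not_lt.mp h) (by
    have := (Finset.mem_filter.mp ht).2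
    exact fun hh => this hh.symm)⟩) ?_ ?_ ?_
  · intro t ht
    by_cases h : t < a
    · simp [h]
    · simp [h]
  · intro t ht t' ht' hh
    by_cases h : t < a
    · by_cases h' : t' < a
      · simp only [h, h', dif_pos, Subtype.mk.injEq, Prod.mk.injEq] at hh
        exact hh.1
      · simp only [h, h', dif_pos, dif_neg, not_false_eq_true, Subtype.mk.injEq, Prod.mk.injEq] at hh
        exfalso
        exact absurd hh.1 h.ne
    · by_cases h' : t' < a
      · simp only [h, h', dif_pos, dif_neg, not_false_eq_true, Subtype.mk.injEq, Prod.mk.injEq] at hh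
        exfalso
        exact absurd hh.1.symm h'.ne
      · simp only [h, h', dif_neg, not_false_eq_true, Subtype.mk.injEq, Prod.mk.injEq] at hh
        exact hh.2
  · intro x hx
    have hlt := x.2
    rcases (Finset.mem_filter.mp hx).2 with h | h
    · refine ⟨x.1.2, Finset.mem_filter.mpr ⟨Finset.mem_univ _, ?_⟩, ?_⟩
      · rw [← h]; exact hlt.ne'
      · have h3 : ¬ x.1.2 < a := by rw [← h]; exact hlt.not_gt
        simp only [h3, dif_neg, not_false_eq_true]
        apply Subtype.ext
        apply Prod.ext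
        · exact h.symm
        · rfl
    · refine ⟨x.1.1, Finset.mem_filter.mpr ⟨Finset.mem_univ _, ?_⟩, ?_⟩
      · rw [← h]; exact hlt.ne
      · have h3 : x.1.1 < a := by rw [← h]; exact hlt
        simp only [h3, dif_pos]
        apply Subtype.ext
        apply Prod.ext
        · rfl
        · exact h.symm

end Pool.Agent.Helper78.BPG
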