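import Pool.Agent.Helper78.BPG.Det
import Pool.Agent.Helper78.BPG.Pairs
import Pool.Agent.Helper78.BPG.Count

/-!
PROJECT BP (MP_1cfd37_ag), block G, module G12: for algebraically independent parameters the section has no zeros which are not expected.

The parameters are `Par p κ k = (Ix × Ix) ⊕ (Pr k ⊕ Fin (p + 1))` with values `(γ_ij), (ω_st), (c_a)`; `par` is the resulting family of complex numbers.

PROOF. Core. Let `x ≠ 0` be as in the theorem; choose `a0` with `x a0 ≠ 0` and replace `x` by `x' = (x a0)⁻¹ • x` (`section_scale`), so `x' a0 = 1`; `∑ c_a x'_a = 0` in the first theorem.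
Put `y = inc x'`, `u = uR G ε γ y` (`≠ 0` by `uR_ne`, as `y ≠ 0`), `t = tR G ε γ W y = act (cay W) u`, `W = wmat e ω`, and let `s0` be given by `exists_s0` (`wmat_skew`).
`w = Sum.elim (act γ y) t` is a complex zero of `J` (and of `I`), so `hb` gives `eRk (range w) + (p + 1) ≤ N`, where `N = card (Ix p κ) + k` (`e` gives `card (Tx p r κ) = k`), i.e. `eRk (range w) ≤ N - (p + 1)` (second theorem: `N - (p + 2)`).
`Q = range w ∪ x' '' {a | a ≠ a0}`: `eRk Q ≤ N - 1` (second theorem: `N - 2`) by `eRk_union_le` with `S = univ.erase a0`.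
`D` = the parameters `γ_(i, inl a0)` (`card Ix` many), the `ω_x` with `x` through `e s0` (`k - 1` many, `card_pairs`; `k ≥ 1`), and, in the first theorem, `c_(a0)`. So `card D = N` (second theorem: `N - 1`).
(Build `D` as `(univ.image ..).disjSum (.. .disjSum ..)`, or as `Finset.univ.filter` with a predicate by cases on `Sum`; `Finset.card_disjSum`.)
`E = Q ∪ par '' {j | j ∉ D}`, `F = cl K E`. All `act γ y i`, `t s`, `x' a` lie in `F` (`subset_cl`; `x' a0 = 1`; `inc` has the further entries `0`). By `det_gamma` (with `a0` there `= inl a0`) `γ_(i, inl a0) ∈ F`, so all `γ_ij ∈ F`; by `uR_mem` all `u s ∈ F`; by `wmat_mem` the matrix entries away from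
`s0` are in `F`; by `det_W` the column `s0` is in `F`; by `mem_of_col` the `ω_x` with `x ∈ D` are in `F`. First theorem: `c_(a0) = -∑_(a ≠ a0) c_a x'_a ∈ F`. So `count_le` gives `card D ≤ N - 1` (second theorem: `≤ N - 2`), a contradiction.
-/

set_option autoImplicit false

namespace Pool.Agent.Helper78.BPG

open MvPolynomial Pool.Agent.Helper72.BP

/-- The index type of the parameters. -/
abbrev Par (p : ℕ) (κ : Type) (k : ℕ) : Type := (Ix p κ × Ix p κ) ⊕ (Pr k ⊕ Fin (p + 1))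

/-- The family of the parameters, as complex numbers. -/
noncomputable def par {p k : ℕ} {κ : Type} (γ : Matrix (Ix p κ) (Ix p κ) ℝ) (ω : Pr k → ℝ) (c : Fin (p + 1) → ℝ) :
    Par p κ k → ℂ :=
  Sum.elim (fun ij => ((γ ij.1 ij.2 : ℝ) : ℂ)) (Sum.elim (fun x => ((ω x : ℝ) : ℂ)) (fun a => ((c a : ℝ) : ℂ)))

theorem core {p r k : ℕ} {κ : Type} [Fintype κ] [DecidableEq κ] (K : Subfield ℝ)
    (G : Fin r → Matrix (Ix p κ) (Ix p κ) ℝ) (hG : ∀ l i j, G l i j ∈ K) (ε : ℝ) (hε : ε ∈ K) (hε0 : 0 < ε)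
    (γ : Matrix (Ix p κ) (Ix p κ) ℝ) (e : Tx p r κ ≃ Fin k) (ω : Pr k → ℝ) (c : Fin (p + 1) → ℝ)
    (hind : AlgebraicIndependent K (par γ ω c))
    (x : Fin (p + 1) → ℂ) (a0 : Fin (p + 1)) (hx : x a0 = 1) (n : ℕ)
    (hn : (mat K).eRk (Set.range (Sum.elim (act γ (inc x)) (tR G ε γ (wmat e ω) (inc x)) :
      Var (Ix p κ) (Tx p r κ) → ℂ)) ≤ n)
    (C : Finset (Fin (p + 1)))
    (hC : ∀ F : Subfield ℂ, (∀ a, x a ∈ F) → (∀ a, a ∉ C → ((c a : ℝ) : ℂ) ∈ F) → ∀ a ∈ C, ((c a : ℝ) : ℂ) ∈ F) :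
    1 ≤ k ∧ Fintype.card (Ix p κ) + (k - 1) + C.card ≤ n + p := by
  classical
  set W : Matrix (Tx p r κ) (Tx p r κ) ℝ := wmat e ω with hW
  set y : Ix p κ → ℂ := inc x with hy
  have hy1 : y (Sum.inl a0) = 1 := hx
  have hy0 : y ≠ 0 := by
    intro h
    rw [h] at hy1
    exact zero_ne_one hy1
  have hu : (uR G ε γ y : Tx p r κ → ℂ) ≠ 0 := uR_ne G ε hε0 γ y hy0
  have hskew : W.transpose = -W := wmat_skew e ω
  obtain ⟨s0, hs0⟩ := exists_s0 W hskew (uR G ε γ y : Tx p r κ → ℂ) hu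
  have hk : 1 ≤ k := by
    have := (e s0).isLt
    omega
  refine ⟨hk, ?_⟩
  set w : Var (Ix p κ) (Tx p r κ) → ℂ := Sum.elim (act γ y) (tR G ε γ W y) with hw
  set Q : Set ℂ := Set.range w ∪ x '' ((Finset.univ.erase a0 : Finset (Fin (p + 1))) : Set (Fin (p + 1))) with hQ
  have hQn : (mat K).eRk Q ≤ (n + p : ℕ) := by
    have h1 := eRk_union_le K (Set.range w) n hn (Finset.univ.erase a0) x
    have h2 : (Finset.univ.erase a0 : Finset (Fin (p + 1))).card = p := by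
      rw [Finset.card_erase_of_mem (Finset.mem_univ a0), Finset.card_univ, Fintype.card_fin]
      omega
    rw [h2] at h1
    exact h1
  have hinj : Function.Injective (fun i : Ix p κ => ((i, Sum.inl a0) : Ix p κ × Ix p κ)) := by
    intro i j h
    exact (Prod.mk.inj h).1
  set D1 : Finset (Ix p κ × Ix p κ) := Finset.univ.map ⟨_, hinj⟩ with hD1
  have hD1m : ∀ i j, ((i, j) : Ix p κ × Ix p κ) ∈ D1 ↔ j = Sum.inl a0 := by
    intro i j
    rw [hD1, Finset.mem_map]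
    constructor
    · rintro ⟨i', _, h⟩
      exact (Prod.mk.inj h).2.symm
    · rintro rfl
      exact ⟨i, Finset.mem_univ _, rfl⟩
  set D2 : Finset (Pr k) := Finset.univ.filter (fun x : Pr k => x.1.1 = e s0 ∨ x.1.2 = e s0) with hD2
  set D : Finset (Par p κ k) := D1.disjSum (D2.disjSum C) with hD
  have hcard : D.card = Fintype.card (Ix p κ) + (k - 1) + C.card := by
    rw [hD, Finset.card_disjSum, Finset.card_disjSum, hD1, Finset.card_map, Finset.card_univ, hD2, card_pairs]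
    ring
  rw [← hcard]
  set E : Set ℂ := Q ∪ par γ ω c '' {j | j ∉ D} with hE
  have hout : ∀ j, j ∉ D → par γ ω c j ∈ cl K E := fun j hj => subset_cl K E (Or.inr ⟨j, hj, rfl⟩)
  have hxF : ∀ a, x a ∈ cl K E := by
    intro a
    by_cases ha : a = a0
    · rw [ha, hx]
      exact one_mem _
    · refine subset_cl K E (Or.inl (Or.inr ⟨a, ?_, rfl⟩))
      exact Finset.mem_coe.2 (Finset.mem_erase.2 ⟨ha, Finset.mem_univ a⟩)
  have hyF : ∀ i, y i ∈ cl K E := by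
    intro i
    rcases i with a | j
    · exact hxF a
    · exact zero_mem _
  have hwF : ∀ v, w v ∈ cl K E := fun v => subset_cl K E (Or.inl (Or.inl ⟨v, rfl⟩))
  have hγ0 : ∀ i j, j ≠ Sum.inl a0 → ((γ i j : ℝ) : ℂ) ∈ cl K E := by
    intro i j hj
    refine hout (Sum.inl (i, j)) ?_
    rw [hD, Finset.inl_mem_disjSum, hD1m]
    exact hj
  have hγa : ∀ i, ((γ i (Sum.inl a0) : ℝ) : ℂ) ∈ cl K E := fun i =>
    det_gamma (cl K E) γ y (Sum.inl a0) hy1 i (hwF (Sum.inl i)) hyF (fun j hj => hγ0 i j hj)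
  have hγF : ∀ i j, ((γ i j : ℝ) : ℂ) ∈ cl K E := by
    intro i j
    by_cases hj : j = Sum.inl a0
    · rw [hj]
      exact hγa i
    · exact hγ0 i j hj
  have huF : ∀ s, (uR G ε γ y : Tx p r κ → ℂ) s ∈ cl K E := fun s =>
    uR_mem K E G hG ε hε γ hγF y hyF s
  have htF : ∀ s, act (cay W) (uR G ε γ y : Tx p r κ → ℂ) s ∈ cl K E := fun s => hwF (Sum.inr s)
  have hW0 : ∀ s t, s ≠ s0 → t ≠ s0 → ((W s t : ℝ) : ℂ) ∈ cl K E := by
    intro s t hs ht
    refine wmat_mem e ω (cl K E) s0 (fun z h1 h2 => ?_) s t hs ht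
    refine hout (Sum.inr (Sum.inl z)) ?_
    rw [hD, Finset.inr_mem_disjSum, Finset.inl_mem_disjSum, hD2, Finset.mem_filter]
    rintro ⟨_, h3 | h3⟩
    · exact h1 h3
    · exact h2 h3
  have hcol : ∀ s, ((W s s0 : ℝ) : ℂ) ∈ cl K E := fun s =>
    det_W (cl K E) W hskew _ huF htF s0 hs0 hW0 s
  have hcF : ∀ a ∈ C, ((c a : ℝ) : ℂ) ∈ cl K E := by
    refine hC (cl K E) hxF (fun a ha => ?_)
    refine hout (Sum.inr (Sum.inr a)) ?_
    rw [hD, Finset.inr_mem_disjSum, Finset.inr_mem_disjSum]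
    exact ha
  refine count_le K (par γ ω c) hind D Q (n + p) hQn ?_
  rintro (⟨i, j⟩ | z | a) hi
  · rw [hD, Finset.inl_mem_disjSum, hD1m] at hi
    rw [hi]
    exact hγa i
  · rw [hD, Finset.inr_mem_disjSum, Finset.inl_mem_disjSum, hD2, Finset.mem_filter] at hi
    exact mem_of_col e ω (cl K E) s0 hcol z hi.2
  · rw [hD, Finset.inr_mem_disjSum, Finset.inr_mem_disjSum] at hi
    exact hcF a hi

theorem card_var {p r k : ℕ} {κ : Type} [Fintype κ] (e : Tx p r κ ≃ Fin k) :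
    Fintype.card (Var (Ix p κ) (Tx p r κ)) = Fintype.card (Ix p κ) + k := by
  rw [Fintype.card_sum]
  congr 1
  rw [Fintype.card_congr e, Fintype.card_fin]

theorem sub_bound {a : ℕ∞} {b N : ℕ} (h : a + (b : ℕ∞) ≤ (N : ℕ∞)) : b ≤ N ∧ a ≤ ((N - b : ℕ) : ℕ∞) := by
  have h1 : (b : ℕ∞) ≤ (N : ℕ∞) := le_trans le_add_self h
  have h2 : a ≤ (N : ℕ∞) := le_trans le_self_add h
  have ha : a ≠ ⊤ := ne_top_of_le_ne_top (ENat.coe_ne_top N) h2
  lift a to ℕ using ha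
  have h3 : a + b ≤ N := by exact_mod_cast h
  refine ⟨by omega, ?_⟩
  exact_mod_cast (by omega : a ≤ N - b)

theorem noZero1 {p r k : ℕ} {κ : Type} [Fintype κ] [DecidableEq κ] (K : Subfield ℝ)
    (G : Fin r → Matrix (Ix p κ) (Ix p κ) ℝ) (hG : ∀ l i j, G l i j ∈ K) (ε : ℝ) (hε : ε ∈ K) (hε0 : 0 < ε)
    (J : Ideal (MvPolynomial (Var (Ix p κ) (Tx p r κ)) ℝ))
    (hJ : ∀ f ∈ J, ∀ d, weightedHomogeneousComponent (wt : Var (Ix p κ) (Tx p r κ) → ℕ) d f ∈ J)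
    (hb : ∀ w : Var (Ix p κ) (Tx p r κ) → ℂ, (∀ f ∈ J, aeval w f = 0) →
      (mat K).eRk (Set.range w) + (p + 1 : ℕ) ≤ (Fintype.card (Var (Ix p κ) (Tx p r κ)) : ℕ∞))
    (γ : Matrix (Ix p κ) (Ix p κ) ℝ) (e : Tx p r κ ≃ Fin k) (ω : Pr k → ℝ) (c : Fin (p + 1) → ℝ)
    (hind : AlgebraicIndependent K (par γ ω c))
    (x : Fin (p + 1) → ℂ) (hx : x ≠ 0) (hz : IsZero J (act γ (inc x)) (tR G ε γ (wmat e ω) (inc x)))
    (hc : ∑ a, ((c a : ℝ) : ℂ) * x a = 0) : False := by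
  obtain ⟨a0, ha0⟩ : ∃ a0, x a0 ≠ 0 := Function.ne_iff.1 hx
  have hz' := section_scale G ε γ (wmat e ω) J hJ x hz (x a0)⁻¹
  set x' : Fin (p + 1) → ℂ := (x a0)⁻¹ • x with hx'
  have h1 : x' a0 = 1 := by
    rw [hx', Pi.smul_apply, smul_eq_mul, inv_mul_cancel₀ ha0]
  have hb' := hb _ hz'
  obtain ⟨h2, h3⟩ := sub_bound hb'
  rw [card_var e] at h2 h3
  have hsum : ∑ a, ((c a : ℝ) : ℂ) * x' a = 0 := by
    have : ∑ a, ((c a : ℝ) : ℂ) * x' a = (x a0)⁻¹ * ∑ a, ((c a : ℝ) : ℂ) * x a := by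
      rw [Finset.mul_sum]
      refine Finset.sum_congr rfl fun a _ => ?_
      rw [hx', Pi.smul_apply, smul_eq_mul]
      ring
    rw [this, hc, mul_zero]
  have hcor := core K G hG ε hε hε0 γ e ω c hind x' a0 h1 _ h3 {a0} (by
    intro F hxF hcF a ha
    rw [Finset.mem_singleton] at ha
    rw [ha]
    rw [← Finset.add_sum_erase _ _ (Finset.mem_univ a0), h1, mul_one] at hsum
    rw [eq_neg_of_add_eq_zero_left hsum]
    refine neg_mem (sum_mem fun b hb => ?_)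
    refine mul_mem (hcF b ?_) (hxF b)
    rw [Finset.mem_singleton]
    exact Finset.ne_of_mem_erase hb)
  obtain ⟨h4, h5⟩ := hcor
  rw [Finset.card_singleton] at h5
  omega

theorem noZero2 {p r k : ℕ} {κ : Type} [Fintype κ] [DecidableEq κ] (K : Subfield ℝ)
    (G : Fin r → Matrix (Ix p κ) (Ix p κ) ℝ) (hG : ∀ l i j, G l i j ∈ K) (ε : ℝ) (hε : ε ∈ K) (hε0 : 0 < ε)
    (J I : Ideal (MvPolynomial (Var (Ix p κ) (Tx p r κ)) ℝ))
    (hJ : ∀ f ∈ J, ∀ d, weightedHomogeneousComponent (wt : Var (Ix p κ) (Tx p r κ) → ℕ) d f ∈ J)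
    (hI : ∀ f ∈ I, ∀ d, weightedHomogeneousComponent (wt : Var (Ix p κ) (Tx p r κ) → ℕ) d f ∈ I)
    (hb : ∀ w : Var (Ix p κ) (Tx p r κ) → ℂ, (∀ f ∈ J, aeval w f = 0) → (∀ f ∈ I, aeval w f = 0) →
      (mat K).eRk (Set.range w) + (p + 1 + 1 : ℕ) ≤ (Fintype.card (Var (Ix p κ) (Tx p r κ)) : ℕ∞))
    (γ : Matrix (Ix p κ) (Ix p κ) ℝ) (e : Tx p r κ ≃ Fin k) (ω : Pr k → ℝ) (c : Fin (p + 1) → ℝ)
    (hind : AlgebraicIndependent K (par γ ω c))
    (x : Fin (p + 1) → ℂ) (hx : x ≠ 0) (hz : IsZero J (act γ (inc x)) (tR G ε γ (wmat e ω) (inc x)))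
    (hzI : IsZero I (act γ (inc x)) (tR G ε γ (wmat e ω) (inc x))) : False := by
  obtain ⟨a0, ha0⟩ : ∃ a0, x a0 ≠ 0 := Function.ne_iff.1 hx
  have hz' := section_scale G ε γ (wmat e ω) J hJ x hz (x a0)⁻¹
  have hzI' := section_scale G ε γ (wmat e ω) I hI x hzI (x a0)⁻¹
  set x' : Fin (p + 1) → ℂ := (x a0)⁻¹ • x with hx'
  have h1 : x' a0 = 1 := by
    rw [hx', Pi.smul_apply, smul_eq_mul, inv_mul_cancel₀ ha0]
  have hb' := hb _ hz' hzI'
  obtain ⟨h2, h3⟩ := sub_bound hb'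
  rw [card_var e] at h2 h3
  have hcor := core K G hG ε hε hε0 γ e ω c hind x' a0 h1 _ h3 ∅ (by
    intro F _ _ a ha
    exact absurd ha (Finset.notMem_empty a))
  obtain ⟨h4, h5⟩ := hcor
  rw [Finset.card_empty] at h5
  omega

end Pool.Agent.Helper78.BPG
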