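import Pool.Agent.Helper78.BPG.Scale

/-!
PROJECT BP (MP_1cfd37_ag), block G, module G13: Nullstellensatz on the section.

PROOF. `null_pow`: Mathlib's Nullstellensatz `MvPolynomial.vanishingIdeal_zeroLocus_eq_radical` holds for a field `k` and an algebraically closed extension `K`, here `k = ℝ`, `K = ℂ`: `X a` vanishes at all complex zeros of `A`, so `X a` lies in the radical of `A`: `X a ^ (n a) ∈ A`;
take `K = ∑ a, n a` (`Ideal.pow_mem_of_pow_mem` / `pow_add`). `null_section`: let `A` be the ideal of the statement and `x` a complex zero of `A`. `φ = aeval x : MvPolynomial (Fin (p+1)) ℝ →ₐ[ℝ] ℂ`. For `f ∈ J`: `0 = φ (aeval (section) f) = aeval (φ ∘ section) f` (`MvPolynomial.comp_aeval_apply`) and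
`φ ∘ section = (act γ (inc x), tR .. (inc x))` by `act_nat`, `tR_nat`; so `x` is a zero on the section, and `∑ c_a x_a = 0`. By hypothesis `x = 0`.
`real_section`: a real zero on the section is a complex one: apply `φ = algebraMap ℝ ℂ` (`Algebra.ofId ℝ ℂ`) and `act_nat`, `tR_nat`, `MvPolynomial.aeval_algebraMap_apply`.
-/

set_option autoImplicit false

namespace Pool.Agent.Helper78.BPG

open MvPolynomial Pool.Agent.Helper72.BP

theorem null_pow {n : ℕ} (A : Ideal (MvPolynomial (Fin n) ℝ))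
    (h : ∀ x : Fin n → ℂ, (∀ f ∈ A, aeval x f = 0) → x = 0) : ∃ K : ℕ, ∀ a, (X a : MvPolynomial (Fin n) ℝ) ^ K ∈ A := by
  have hrad : ∀ a, (X a : MvPolynomial (Fin n) ℝ) ∈ A.radical := by
    intro a
    rw [← MvPolynomial.vanishingIdeal_zeroLocus_eq_radical (K := ℂ) A, MvPolynomial.mem_vanishingIdeal_iff]
    intro x hx
    have hx0 := h x (fun f hf => hx f hf)
    rw [aeval_X, hx0]
    rfl
  choose m hm using hrad
  refine ⟨∑ a, m a, fun a => ?_⟩
  have hle : m a ≤ ∑ b, m b := Finset.single_le_sum (f := m) (fun b _ => Nat.zero_le _) (Finset.mem_univ a)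
  obtain ⟨k, hk⟩ := Nat.exists_eq_add_of_le hle
  rw [hk, pow_add]
  exact A.mul_mem_right _ (hm a)

/-- Naturality of the section for the two parts together. -/
private theorem section_nat {p r : ℕ} {κ : Type} [Fintype κ] [DecidableEq κ] {R S : Type} [CommRing R] [Algebra ℝ R]
    [CommRing S] [Algebra ℝ S] (φ : R →ₐ[ℝ] S)
    (G : Fin r → Matrix (Ix p κ) (Ix p κ) ℝ) (ε : ℝ)
    (γ : Matrix (Ix p κ) (Ix p κ) ℝ) (W : Matrix (Tx p r κ) (Tx p r κ) ℝ) (x : Fin (p + 1) → R) (x' : Fin (p + 1) → S)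
    (hx : ∀ a, φ (x a) = x' a) (v : Var (Ix p κ) (Tx p r κ)) :
    φ ((Sum.elim (act γ (inc x)) (tR G ε γ W (inc x)) : Var (Ix p κ) (Tx p r κ) → R) v) =
      (Sum.elim (act γ (inc x')) (tR G ε γ W (inc x')) : Var (Ix p κ) (Tx p r κ) → S) v := by
  have hinc : (fun i => φ ((inc x : Ix p κ → R) i)) = (inc x' : Ix p κ → S) := by
    funext i
    rcases i with a | k
    · exact hx a
    · exact map_zero φ
  rcases v with i | s
  · simp only [Sum.elim_inl]
    rw [act_nat, hinc]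
  · simp only [Sum.elim_inr]
    rw [tR_nat, hinc]

theorem null_section {p r : ℕ} {κ : Type} [Fintype κ] [DecidableEq κ]
    (G : Fin r → Matrix (Ix p κ) (Ix p κ) ℝ) (ε : ℝ) (J : Ideal (MvPolynomial (Var (Ix p κ) (Tx p r κ)) ℝ))
    (γ : Matrix (Ix p κ) (Ix p κ) ℝ) (W : Matrix (Tx p r κ) (Tx p r κ) ℝ) (c : Fin (p + 1) → ℝ)
    (h : ∀ x : Fin (p + 1) → ℂ, x ≠ 0 → IsZero J (act γ (inc x)) (tR G ε γ W (inc x)) →
      ∑ a, ((c a : ℝ) : ℂ) * x a ≠ 0) :
    ∃ K : ℕ, ∀ a, (X a : MvPolynomial (Fin (p + 1)) ℝ) ^ K ∈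
        Ideal.map (aeval (Sum.elim (act γ (inc X)) (tR G ε γ W (inc X)) :
          Var (Ix p κ) (Tx p r κ) → MvPolynomial (Fin (p + 1)) ℝ)).toRingHom J ⊔
          Ideal.span {∑ a, C (c a) * X a} := by
  apply null_pow
  intro x hx
  by_contra hne
  refine h x hne ?_ ?_
  · intro f hf
    have h1 := hx _ (Ideal.mem_sup_left (Ideal.mem_map_of_mem
      (aeval (Sum.elim (act γ (inc X)) (tR G ε γ W (inc X)) :
          Var (Ix p κ) (Tx p r κ) → MvPolynomial (Fin (p + 1)) ℝ)).toRingHom hf))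
    have h2 : aeval x (aeval (Sum.elim (act γ (inc X)) (tR G ε γ W (inc X)) :
          Var (Ix p κ) (Tx p r κ) → MvPolynomial (Fin (p + 1)) ℝ) f) = 0 := h1
    rw [MvPolynomial.comp_aeval_apply] at h2
    rw [← h2]
    congr 2
    funext v
    exact (section_nat (aeval x) G ε γ W X x (fun a => aeval_X x a) v).symm
  · have h1 := hx _ (Ideal.mem_sup_right (Ideal.subset_span (Set.mem_singleton (∑ a, C (c a) * X a :
      MvPolynomial (Fin (p + 1)) ℝ))))
    rw [← h1, map_sum]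
    refine Finset.sum_congr rfl fun a _ => ?_
    rw [map_mul, aeval_X, MvPolynomial.aeval_C]
    rfl

theorem real_section {p r : ℕ} {κ : Type} [Fintype κ] [DecidableEq κ]
    (G : Fin r → Matrix (Ix p κ) (Ix p κ) ℝ) (ε : ℝ) (J : Ideal (MvPolynomial (Var (Ix p κ) (Tx p r κ)) ℝ))
    (γ : Matrix (Ix p κ) (Ix p κ) ℝ) (W : Matrix (Tx p r κ) (Tx p r κ) ℝ) (x : Fin (p + 1) → ℝ)
    (h : IsZero J (act γ (inc x)) (tR G ε γ W (inc x))) :
    IsZero J (act γ (inc (fun a => ((x a : ℝ) : ℂ)))) (tR G ε γ W (inc (fun a => ((x a : ℝ) : ℂ)))) := by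
  intro f hf
  have h1 := h f hf
  have h2 : (Algebra.ofId ℝ ℂ) (aeval (Sum.elim (act γ (inc x)) (tR G ε γ W (inc x)) :
      Var (Ix p κ) (Tx p r κ) → ℝ) f) = 0 := by
    rw [h1, map_zero]
  rw [MvPolynomial.comp_aeval_apply] at h2
  rw [← h2]
  congr 2
  funext v
  exact (section_nat (Algebra.ofId ℝ ℂ) G ε γ W x (fun a => ((x a : ℝ) : ℂ)) (fun a => rfl) v).symm

end Pool.Agent.Helper78.BPG
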