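import Pool.Agent.Helper72.BP.Defs2
import Pool.Agent.Helper78.BPG.Cone
import Pool.Agent.Helper78.BPG.Gen
import Pool.Agent.Helper78.BPG.NoZero
import Pool.Agent.Helper78.BPG.Null

/-!
PROJECT BP (MP_1cfd37_ag), block G: assembly. `gen` is the statement `gMain` of the interface.
-/

set_option autoImplicit false

namespace Pool.Agent.Helper78.BPG

open MvPolynomial Pool.Agent.Helper72.BP

theorem gen {p m r : ℕ} {κ : Type} [Fintype κ] [DecidableEq κ] (G : Fin r → Matrix (Ix p κ) (Ix p κ) ℝ)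
    (q : (Fin m → ℂ) → Ix p κ → ℝ) (ε : ℝ) (hT : IsTube G q ε)
    (Z : Set ((Ix p κ → ℝ) × (Tx p r κ → ℝ))) (hZ : Z ⊆ Vt G ε)
    (hreg : ∀ x ∈ Z, ∃ f : Fin p → MvPolynomial (Var (Ix p κ) (Tx p r κ)) ℝ, (∀ j, f j ∈ coneIdeal Z) ∧
      LinearIndependent ℝ (Fin.cons (grad (Sum.elim x.1 x.2) (Fpol G ε)) (fun j => grad (Sum.elim x.1 x.2) (f j)) :
        Fin (p + 1) → (Var (Ix p κ) (Tx p r κ) → ℝ)))
    (I : Ideal (MvPolynomial (Var (Ix p κ) (Tx p r κ)) ℝ))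
    (hI : ∀ f ∈ I, ∀ d, weightedHomogeneousComponent (wt : Var (Ix p κ) (Tx p r κ) → ℕ) d f ∈ I)
    (hIZ : ∀ x ∈ Z, ∃ h ∈ I, aeval (Sum.elim x.1 x.2 : Var (Ix p κ) (Tx p r κ) → ℝ) h ≠ 0)
    (δ : ℝ) (hδ : 0 < δ) :
    ∃ (γ : Matrix (Ix p κ) (Ix p κ) ℝ) (W : Matrix (Tx p r κ) (Tx p r κ) ℝ) (c : Fin (p + 1) → ℝ) (K : ℕ),
      Near δ γ W ∧
      (∀ a, (X a : MvPolynomial (Fin (p + 1)) ℝ) ^ K ∈
        Ideal.map (aeval (Sum.elim (act γ (inc X)) (tR G ε γ W (inc X)) :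
          Var (Ix p κ) (Tx p r κ) → MvPolynomial (Fin (p + 1)) ℝ)).toRingHom (coneIdeal Z) ⊔
          Ideal.span {∑ a, C (c a) * X a}) ∧
      (∀ x : Fin (p + 1) → ℝ, x ≠ 0 →
        ¬ (IsZero (coneIdeal Z) (act γ (inc x)) (tR G ε γ W (inc x)) ∧
          IsZero I (act γ (inc x)) (tR G ε γ W (inc x)))) := by
  -- the polynomial `F` lies in the ideal of the cone
  have hF : (Fpol G ε : MvPolynomial (Var (Ix p κ) (Tx p r κ)) ℝ) ∈ coneIdeal Z := by
    intro x hx c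
    have h1 : ∀ (y : Ix p κ → ℝ) (t : Tx p r κ → ℝ),
        aeval (Sum.elim y t) (Fpol G ε : MvPolynomial (Var (Ix p κ) (Tx p r κ)) ℝ) = Ffun G ε y t := by
      intro y t
      simp [Fpol, Ffun, nsq, qf, MvPolynomial.algebraMap_eq]
    rw [h1]
    have h2 := (hZ hx).2
    have h3 : Ffun G ε (c • x.1) (c ^ 2 • x.2) = c ^ 4 * Ffun G ε x.1 x.2 := by
      have ha : nsq (c ^ 2 • x.2) = c ^ 4 * nsq x.2 := by
        simp only [nsq, Pi.smul_apply, smul_eq_mul, Finset.mul_sum]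
        exact Finset.sum_congr rfl fun i _ => by ring
      have hb : nsq (c • x.1) = c ^ 2 * nsq x.1 := by
        simp only [nsq, Pi.smul_apply, smul_eq_mul, Finset.mul_sum]
        exact Finset.sum_congr rfl fun i _ => by ring
      have hc : ∀ l, qf (G l) (c • x.1) = c ^ 2 * qf (G l) x.1 := by
        intro l
        simp only [qf, Pi.smul_apply, smul_eq_mul, Finset.mul_sum]
        exact Finset.sum_congr rfl fun i _ => Finset.sum_congr rfl fun j _ => by ring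
      simp only [Ffun, ha, hb, hc]
      have hd : ∑ l, (c ^ 2 * qf (G l) x.1) ^ 2 = c ^ 4 * ∑ l, qf (G l) x.1 ^ 2 := by
        rw [Finset.mul_sum]
        exact Finset.sum_congr rfl fun l _ => by ring
      rw [hd]
      ring
    rw [h3, h2, mul_zero]
  have hreg' : ∀ z ∈ Z, ∃ f : Fin (p + 1) → MvPolynomial (Var (Ix p κ) (Tx p r κ)) ℝ, (∀ j, f j ∈ coneIdeal Z) ∧
      LinearIndependent ℝ (fun j : Fin (p + 1) => fun a : Var (Ix p κ) (Tx p r κ) =>
        aeval (Sum.elim z.1 z.2 : Var (Ix p κ) (Tx p r κ) → ℝ) (pderiv a (f j))) := by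
    intro z hz
    obtain ⟨f, hf, hl⟩ := hreg z hz
    refine ⟨Fin.cons (Fpol G ε) f, ?_, ?_⟩
    · intro j
      refine Fin.cases ?_ (fun i => ?_) j
      · simpa using hF
      · simpa using hf i
    · convert hl using 1
      funext j
      refine Fin.cases ?_ (fun i => ?_) j
      · rfl
      · rfl
  -- the field of definition
  obtain ⟨K, hKc, hS, hK1, hK2⟩ := exists_field (coneIdeal Z) I
    (insert ε (Set.range fun x : Fin r × Ix p κ × Ix p κ => G x.1 x.2.1 x.2.2))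
    ((Set.finite_range _).insert ε).countable
  have hε : ε ∈ K := hS (Set.mem_insert _ _)
  have hG : ∀ l i j, G l i j ∈ K := fun l i j => hS (Set.mem_insert_of_mem _ ⟨(l, i, j), rfl⟩)
  have hb1 : ∀ w : Var (Ix p κ) (Tx p r κ) → ℂ, (∀ f ∈ coneIdeal Z, aeval w f = 0) →
      (mat K).eRk (Set.range w) + (p + 1 : ℕ) ≤ (Fintype.card (Var (Ix p κ) (Tx p r κ)) : ℕ∞) :=
    fun w hw => cone_bound K Z hK1 hreg' w hw
  have hb2 : ∀ w : Var (Ix p κ) (Tx p r κ) → ℂ, (∀ f ∈ coneIdeal Z, aeval w f = 0) → (∀ f ∈ I, aeval w f = 0) →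
      (mat K).eRk (Set.range w) + (p + 1 + 1 : ℕ) ≤ (Fintype.card (Var (Ix p κ) (Tx p r κ)) : ℕ∞) :=
    fun w hw hwI => cone_bound_strict K Z hK1 hreg' I hK2 hI hIZ w hw hwI
  -- the parameters
  let e : Tx p r κ ≃ Fin (Fintype.card (Tx p r κ)) := Fintype.equivFin _
  obtain ⟨θ, hθ, hind⟩ := exists_near (P := Par p κ (Fintype.card (Tx p r κ))) K
    (Sum.elim (fun ij => (1 : Matrix (Ix p κ) (Ix p κ) ℝ) ij.1 ij.2) (Sum.elim (fun _ => 0) (fun _ => 0))) δ hδ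
  let γ : Matrix (Ix p κ) (Ix p κ) ℝ := fun i j => θ (Sum.inl (i, j))
  let ω : Pr (Fintype.card (Tx p r κ)) → ℝ := fun x => θ (Sum.inr (Sum.inl x))
  let c : Fin (p + 1) → ℝ := fun a => θ (Sum.inr (Sum.inr a))
  have hpar : AlgebraicIndependent K (par γ ω c) := by
    have h : (fun i => ((θ i : ℝ) : ℂ)) = par γ ω c := by
      funext i
      rcases i with ⟨i, j⟩ | x | a
      · rfl
      · rfl
      · rfl
    rw [← h]
    exact hind
  have hnear : Near δ γ (wmat e ω) := by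
    refine ⟨fun i j => ?_, fun i j => ?_, wmat_skew e ω⟩
    · exact hθ (Sum.inl (i, j))
    · refine wmat_small e ω δ hδ (fun x => ?_) i j
      have h := hθ (Sum.inr (Sum.inl x))
      simpa using h
  obtain ⟨N, hN⟩ := null_section G ε (coneIdeal Z) γ (wmat e ω) c (fun x hx hz hc =>
    noZero1 K G hG ε hε hT.pos (coneIdeal Z) (cone_comp Z) hb1 γ e ω c hpar x hx hz hc)
  refine ⟨γ, wmat e ω, c, N, hnear, hN, ?_⟩
  rintro x hx ⟨h1, h2⟩
  refine noZero2 K G hG ε hε hT.pos (coneIdeal Z) I (cone_comp Z) hI hb2 γ e ω c hpar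
    (fun a => ((x a : ℝ) : ℂ)) ?_ (real_section G ε _ γ _ x h1) (real_section G ε _ γ _ x h2)
  intro h0
  apply hx
  funext a
  have := congrFun h0 a
  simpa using this

end Pool.Agent.Helper78.BPG
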