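import Pool.Agent.Helper78.BPG.Cl
import Pool.Agent.Helper78.BPG.Jac

/-!
PROJECT BP (MP_1cfd37_ag), block G, module G6: complex zeros of a prime ideal with a regular real zero.

`K` is a subfield of `ℝ`, `P` a prime ideal of `K[X_σ]`, `x` a real zero of `P` at which `s` elements of `P` have independent gradients.

PROOF. `A = MvPolynomial σ K ⧸ P`, `L = FractionRing A`, `ξ a` = image of `X a`; `L = K(ξ)`.
(1) Since the gradients of `g` at `x` are independent, some `s × s` minor of the matrix `(∂_a g_i (x))` is nonzero: there is an injective `c : Fin s → σ` with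
    `det (∂_(c j) g_i (x)) ≠ 0` (rank = s: `Matrix.exists_...`, or choose columns forming a basis of the column space; a helper lemma for `Matrix (Fin s) σ ℝ` with linearly independent rows is `exists_minor` below).
    This determinant is the value at `x` of the polynomial `δ = det (∂_(c j) g_i)`, so `δ ∉ P`, so its image in `L` is nonzero; the image is the determinant of `jac`. By `trdeg_le_jac`: `trdeg K L + s ≤ card σ`.
(2) Let `w` be a complex zero of `P`. Choose a basis of `range w` in the matroid `mat K` (`Matroid.exists_isBasis`), write it as `w ∘ b`, `b : Fin d → σ` injective, `d = eRk (range w)`, `w ∘ b` algebraically independent.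
    Then `ξ ∘ b` is algebraically independent over `K` in `L`: if `aeval (ξ ∘ b) F = 0` then `rename b F ∈ P`, so `aeval (w ∘ b) F = 0`, `F = 0`. Hence `d ≤ trdeg K L` (`AlgebraicIndependent.lift_cardinalMk_le_trdeg`), so `d + s ≤ card σ`.
(3) strict version: suppose `d + s = card σ`. Then `d = trdeg K L` is finite and `ξ ∘ b` is a transcendence basis of `L` (`AlgebraicIndependent.isTranscendenceBasis_of_trdeg_le_of_finite`), so the image `φ` of `f` in `L`, nonzero
    because `f ∉ P`, is algebraic over `K[ξ ∘ b]`: there is a polynomial relation `∑_i a_i(ξ ∘ b) φ^i = 0`; dividing by a power of `φ` we may assume `a_0(ξ ∘ b) ≠ 0`. So `∑_i (rename b a_i) f^i ∈ P`; evaluate at `w`: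
    `f(w) = 0` gives `a_0(w ∘ b) = 0`, hence `a_0 = 0`, a contradiction.
-/

set_option autoImplicit false

namespace Pool.Agent.Helper78.BPG

open MvPolynomial

/-- A maximal minor. -/
theorem exists_minor {σ : Type} [Fintype σ] {s : ℕ} (v : Fin s → σ → ℝ) (hv : LinearIndependent ℝ v) :
    ∃ c : Fin s → σ, Function.Injective c ∧ (Matrix.of fun i j : Fin s => v i (c j)).det ≠ 0 := by
  classical
  obtain ⟨κ, a, ha, hsp, hli⟩ :=
    exists_linearIndependent' ℝ (fun b : σ => (fun i : Fin s => v i b))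
  have : Finite κ := Finite.of_injective a ha
  have : Fintype κ := Fintype.ofFinite κ
  have hr : (Matrix.of v).rank = s := by
    have h0 := LinearIndependent.rank_matrix (M := Matrix.of v) hv
    simpa using h0
  have hc : Fintype.card κ = s := by
    have h1 := finrank_span_eq_card hli
    rw [hsp] at h1
    have h2 := Matrix.rank_eq_finrank_span_cols (Matrix.of v)
    rw [hr] at h2
    exact h1.symm.trans h2.symm
  let e : Fin s ≃ κ := (Fintype.equivFinOfCardEq hc).symm
  refine ⟨a ∘ e, ha.comp e.injective, ?_⟩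
  have h3 : LinearIndependent ℝ (Matrix.of fun i j : Fin s => v i ((a ∘ e) j)).col :=
    hli.comp e e.injective
  have h4 := Matrix.linearIndependent_cols_iff_isUnit.mp h3
  exact ((Matrix.isUnit_iff_isUnit_det _).mp h4).ne_zero

private theorem exists_L {K : Type} [Field K] {σ : Type} (P : Ideal (MvPolynomial σ K))
    [P.IsPrime] : ∃ (L : Type) (_ : Field L) (_ : Algebra K L) (ξ : σ → L),
      (∀ f : MvPolynomial σ K, aeval ξ f = 0 ↔ f ∈ P) ∧
        IntermediateField.adjoin K (Set.range ξ) = ⊤ := by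
  let A := MvPolynomial σ K ⧸ P
  let φ : MvPolynomial σ K →ₐ[K] FractionRing A :=
    (IsScalarTower.toAlgHom K A (FractionRing A)).comp (Ideal.Quotient.mkₐ K P)
  have hφ : φ = aeval (φ ∘ X) := aeval_unique φ
  have hev : ∀ f, aeval (φ ∘ X) f = φ f := fun f => by rw [← hφ]
  refine ⟨FractionRing A, inferInstance, inferInstance, φ ∘ X, ?_, ?_⟩
  · intro f
    rw [hev, ← Ideal.Quotient.eq_zero_iff_mem]
    exact map_eq_zero_iff (algebraMap A (FractionRing A)) (IsFractionRing.injective _ _)
  · rw [eq_top_iff]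
    intro z _
    obtain ⟨a, b, _, rfl⟩ := IsFractionRing.div_surjective (A := A) z
    have key : ∀ a : A, algebraMap A (FractionRing A) a ∈
        IntermediateField.adjoin K (Set.range (φ ∘ X)) := by
      intro a
      obtain ⟨f, rfl⟩ := Ideal.Quotient.mk_surjective a
      apply IntermediateField.algebra_adjoin_le_adjoin
      rw [Algebra.adjoin_range_eq_range_aeval]
      exact ⟨f, hev f⟩
    exact div_mem (key a) (key b)

private theorem trdeg_bound (K : Subfield ℝ) {σ : Type} [Fintype σ] (P : Ideal (MvPolynomial σ K))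
    {L : Type} [Field L] [Algebra K L] (ξ : σ → L)
    (hξ : ∀ f : MvPolynomial σ K, aeval ξ f = 0 ↔ f ∈ P)
    (htop : IntermediateField.adjoin K (Set.range ξ) = ⊤)
    (x : σ → ℝ) (hx : ∀ f ∈ P, aeval x f = 0) {s : ℕ} (g : Fin s → MvPolynomial σ K)
    (hg : ∀ i, g i ∈ P)
    (hind : LinearIndependent ℝ (fun i : Fin s => fun a : σ => aeval x (pderiv a (g i)))) :
    Algebra.trdeg K L + s ≤ (Fintype.card σ : Cardinal) := by
  obtain ⟨c, _, hc⟩ := exists_minor _ hind
  refine trdeg_le_jac ξ htop g (fun i => (hξ _).mpr (hg i)) c ?_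
  have h1 : ∀ (B : Type) [CommRing B] [Algebra K B] (y : σ → B),
      (Matrix.of fun i j : Fin s => aeval y (pderiv (c j) (g i))).det =
        aeval y (Matrix.of fun i j : Fin s => pderiv (c j) (g i)).det := by
    intro B _ _ y
    rw [AlgHom.map_det]
    rfl
  rw [h1] at hc ⊢
  intro h2
  exact hc (hx _ ((hξ _).mp h2))

private theorem choice (K : Subfield ℝ) {σ : Type} [Fintype σ] (w : σ → ℂ) :
    ∃ (I : Set ℂ) (b : I → σ), I.Finite ∧ (mat K).eRk (Set.range w) = (I.ncard : ℕ∞) ∧
      (∀ i, w (b i) = i) ∧ AlgebraicIndependent K (fun i : I => (i : ℂ)) := by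
  obtain ⟨I, hI⟩ := (mat K).exists_isBasis (Set.range w) (by
    rw [AlgebraicIndependent.matroid_e]; exact Set.subset_univ _)
  have hfin : I.Finite := (Set.finite_range w).subset hI.subset
  have hb : ∀ i : I, ∃ a : σ, w a = i := fun i => hI.subset i.2
  choose b hb using hb
  refine ⟨I, b, hfin, ?_, hb, ?_⟩
  · rw [← hI.encard_eq_eRk, hfin.cast_ncard_eq]
  · exact AlgebraicIndependent.matroid_indep_iff.mp hI.indep

private theorem indep_xi (K : Subfield ℝ) {σ : Type} (P : Ideal (MvPolynomial σ K))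
    {L : Type} [Field L] [Algebra K L] (ξ : σ → L)
    (hξ : ∀ f : MvPolynomial σ K, aeval ξ f = 0 ↔ f ∈ P)
    (w : σ → ℂ) (hw : ∀ f ∈ P, aeval w f = 0) (I : Set ℂ) (b : I → σ)
    (hb : ∀ i, w (b i) = i) (hI : AlgebraicIndependent K (fun i : I => (i : ℂ))) :
    AlgebraicIndependent K (ξ ∘ b) := by
  rw [algebraicIndependent_iff]
  intro F hF
  rw [← aeval_rename, hξ] at hF
  have h1 := hw _ hF
  rw [aeval_rename] at h1
  have h2 : (w ∘ b) = (fun i : I => (i : ℂ)) := funext hb
  rw [h2] at h1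
  exact (algebraicIndependent_iff.mp hI) F h1

private theorem adjoin_surj {K L ι : Type} [Field K] [Field L] [Algebra K L] (y : ι → L) (z : L)
    (hz : z ∈ Algebra.adjoin K (Set.range y)) : ∃ p : MvPolynomial ι K, aeval y p = z := by
  rw [Algebra.adjoin_range_eq_range_aeval] at hz
  exact hz

theorem prime_bound (K : Subfield ℝ) {σ : Type} [Fintype σ] (P : Ideal (MvPolynomial σ K)) [P.IsPrime]
    (x : σ → ℝ) (hx : ∀ f ∈ P, aeval x f = 0) {s : ℕ} (g : Fin s → MvPolynomial σ K) (hg : ∀ i, g i ∈ P)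
    (hind : LinearIndependent ℝ (fun i : Fin s => fun a : σ => aeval x (pderiv a (g i))))
    (w : σ → ℂ) (hw : ∀ f ∈ P, aeval w f = 0) :
    (mat K).eRk (Set.range w) + s ≤ (Fintype.card σ : ℕ∞) := by
  obtain ⟨L, _, _, ξ, hξ, htop⟩ := exists_L P
  obtain ⟨I, b, hfin, hrk, hb, hI⟩ := choice K w
  have hxi := indep_xi K P ξ hξ w hw I b hb hI
  have h1 : (I.ncard : Cardinal) ≤ Algebra.trdeg K L := by
    rw [Set.cast_ncard hfin]
    exact hxi.cardinalMk_le_trdeg
  have h2 := trdeg_bound K P ξ hξ htop x hx g hg hind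
  have h3 : ((I.ncard + s : ℕ) : Cardinal) ≤ (Fintype.card σ : Cardinal) := by
    push_cast
    exact le_trans (by gcongr) h2
  have h4 : I.ncard + s ≤ Fintype.card σ := by exact_mod_cast h3
  rw [hrk]
  exact_mod_cast h4

theorem prime_bound_strict (K : Subfield ℝ) {σ : Type} [Fintype σ] (P : Ideal (MvPolynomial σ K)) [P.IsPrime]
    (x : σ → ℝ) (hx : ∀ f ∈ P, aeval x f = 0) {s : ℕ} (g : Fin s → MvPolynomial σ K) (hg : ∀ i, g i ∈ P)
    (hind : LinearIndependent ℝ (fun i : Fin s => fun a : σ => aeval x (pderiv a (g i))))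
    (w : σ → ℂ) (hw : ∀ f ∈ P, aeval w f = 0) (f : MvPolynomial σ K) (hfw : aeval w f = 0) (hfP : f ∉ P) :
    (mat K).eRk (Set.range w) + (s + 1 : ℕ) ≤ (Fintype.card σ : ℕ∞) := by
  obtain ⟨L, _, _, ξ, hξ, htop⟩ := exists_L P
  obtain ⟨I, b, hfin, hrk, hb, hI⟩ := choice K w
  have hxi := indep_xi K P ξ hξ w hw I b hb hI
  have h1 : (I.ncard : Cardinal) ≤ Algebra.trdeg K L := by
    rw [Set.cast_ncard hfin]
    exact hxi.cardinalMk_le_trdeg
  have h2 := trdeg_bound K P ξ hξ htop x hx g hg hind
  have h3 : ((I.ncard + s : ℕ) : Cardinal) ≤ (Fintype.card σ : Cardinal) := by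
    push_cast
    exact le_trans (by gcongr) h2
  have h4 : I.ncard + s ≤ Fintype.card σ := by exact_mod_cast h3
  rw [hrk]
  suffices h5 : I.ncard + s ≠ Fintype.card σ by
    have h6 : I.ncard + (s + 1) ≤ Fintype.card σ := by omega
    exact_mod_cast h6
  intro h5
  have h7 : Algebra.trdeg K L ≤ (I.ncard : Cardinal) := by
    rw [← h5] at h2
    have h8 : Algebra.trdeg K L < Cardinal.aleph0 :=
      lt_of_le_of_lt (le_trans (self_le_add_right _ _) h2) (Cardinal.natCast_lt_aleph0)
    obtain ⟨m, hm⟩ := Cardinal.lt_aleph0.mp h8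
    rw [hm] at h2 ⊢
    have h9 : m + s ≤ I.ncard + s := by exact_mod_cast h2
    have h10 : m ≤ I.ncard := by omega
    exact_mod_cast h10
  have : Finite I := hfin
  have htb : IsTranscendenceBasis K (ξ ∘ b) :=
    hxi.isTranscendenceBasis_of_trdeg_le_of_finite (by rwa [← Set.cast_ncard hfin])
  have := htb.isAlgebraic
  have hφ : aeval ξ f ≠ 0 := fun h => hfP ((hξ f).mp h)
  obtain ⟨q, hq0, hq⟩ := (Algebra.IsAlgebraic.isAlgebraic
    (R := Algebra.adjoin K (Set.range (ξ ∘ b))) (aeval ξ f)).exists_nonzero_coeff_and_aeval_eq_zero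
      (mem_nonZeroDivisors_of_ne_zero hφ)
  have hs : ∀ c : Algebra.adjoin K (Set.range (ξ ∘ b)), ∃ p : MvPolynomial I K,
      aeval (ξ ∘ b) p = (c : L) := fun c => adjoin_surj _ _ c.2
  choose a ha using hs
  have hmem : (∑ i ∈ Finset.range (q.natDegree + 1), rename b (a (q.coeff i)) * f ^ i) ∈ P := by
    rw [← hξ, map_sum, ← hq, Polynomial.aeval_eq_sum_range]
    refine Finset.sum_congr rfl fun i _ => ?_
    rw [map_mul, map_pow, aeval_rename, ha]
    rfl
  have h11 := hw _ hmem
  rw [map_sum, Finset.sum_range_succ'] at h11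
  have h12 : ∑ i ∈ Finset.range q.natDegree,
      aeval w (rename b (a (q.coeff (i + 1))) * f ^ (i + 1)) = 0 := by
    refine Finset.sum_eq_zero fun i _ => ?_
    rw [map_mul, map_pow, hfw, zero_pow (Nat.succ_ne_zero i), mul_zero]
  rw [h12, zero_add, pow_zero, mul_one, aeval_rename] at h11
  have h13 : (w ∘ b) = (fun i : I => (i : ℂ)) := funext hb
  rw [h13] at h11
  have h14 := (algebraicIndependent_iff.mp hI) _ h11
  apply hq0
  have h15 := ha (q.coeff 0)
  rw [h14, map_zero] at h15
  exact Subtype.ext h15.symm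

end Pool.Agent.Helper78.BPG
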