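import Pool.Agent.Helper78.BPG.Prime

/-!
PROJECT BP (MP_1cfd37_ag), block G, module G7: complex zeros of the vanishing ideal of a set of regular real points.

PROOF. `P_w = ker (aeval w)` is prime and contains `J`; choose a minimal prime `P` of `J` with `P ≤ P_w` (`Ideal.exists_minimalPrimes_le`). `J.minimalPrimes` is finite (Noetherian) and `J` is the intersection of
its minimal primes (radical), so there is `h ∉ P` lying in all the other minimal primes (product of elements `h_q ∈ q \ P`; possible since `q ≤ P` would give `q = P`); then `h * f ∈ J` for `f ∈ P`, and `h ∉ J`.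
By `hT` there is `x ∈ T` with `h(x) ≠ 0`; for `f ∈ P`, `h(x) f(x) = 0`, so `f(x) = 0`. By `hg` there are `g_i ∈ J ≤ P` with independent gradients at `x`: `prime_bound` gives the first claim.
Second claim: there is `f ∈ I` with `f(x) ≠ 0`, so `f ∉ P`, and `f(w) = 0`: `prime_bound_strict`.
-/

set_option autoImplicit false

namespace Pool.Agent.Helper78.BPG

open MvPolynomial

private theorem pick (K : Subfield ℝ) {σ : Type} [Fintype σ] (J : Ideal (MvPolynomial σ K)) (hJ : J.IsRadical)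
    (T : Set (σ → ℝ)) (hT : ∀ f, f ∉ J → ∃ x ∈ T, aeval x f ≠ 0) (hTJ : ∀ x ∈ T, ∀ f ∈ J, aeval x f = 0)
    (w : σ → ℂ) (hw : ∀ f ∈ J, aeval w f = 0) :
    ∃ P : Ideal (MvPolynomial σ K), P.IsPrime ∧ J ≤ P ∧ (∀ f ∈ P, aeval w f = 0) ∧
      ∃ x ∈ T, ∀ f ∈ P, aeval x f = 0 := by
  classical
  let Pw : Ideal (MvPolynomial σ K) := RingHom.ker (aeval w : MvPolynomial σ K →ₐ[K] ℂ)
  have hPw : Pw.IsPrime := RingHom.ker_isPrime _
  have hJw : J ≤ Pw := fun f hf => hw f hf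
  obtain ⟨P, hPmin, hPle⟩ := Ideal.exists_minimalPrimes_le hJw
  have hPp : P.IsPrime := hPmin.1.1
  have hJP : J ≤ P := hPmin.1.2
  refine ⟨P, hPp, hJP, fun f hf => hPle hf, ?_⟩
  have hfin : J.minimalPrimes.Finite := Ideal.finite_minimalPrimes_of_isNoetherianRing _ J
  have hch : ∀ q : Ideal (MvPolynomial σ K), ∃ h : MvPolynomial σ K,
      (q ∈ J.minimalPrimes → q ≠ P → h ∈ q) ∧ h ∉ P := by
    intro q
    by_cases hq : q ∈ J.minimalPrimes ∧ q ≠ P
    · have hnle : ¬ q ≤ P := by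
        intro hle
        exact hq.2 (le_antisymm hle (hPmin.2 hq.1.1 hle))
      obtain ⟨h, hh1, hh2⟩ := Set.not_subset.mp hnle
      exact ⟨h, fun _ _ => hh1, hh2⟩
    · refine ⟨1, fun h1 h2 => (hq ⟨h1, h2⟩).elim, ?_⟩
      exact (Ideal.ne_top_iff_one P).mp hPp.ne_top
  choose h hh1 hh2 using hch
  let H : MvPolynomial σ K := ∏ q ∈ hfin.toFinset, h q
  have hH : H ∉ P := by
    intro hmem
    obtain ⟨q, _, hq⟩ := (Ideal.IsPrime.prod_mem_iff).mp hmem
    exact hh2 q hq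
  obtain ⟨x, hx, hxH⟩ := hT H (fun hmem => hH (hJP hmem))
  refine ⟨x, hx, fun f hf => ?_⟩
  have hmem : H * f ∈ J := by
    rw [← hJ.radical, ← Ideal.sInf_minimalPrimes, Submodule.mem_sInf]
    intro q hq
    by_cases hqP : q = P
    · rw [hqP]
      exact P.mul_mem_left _ hf
    · refine Ideal.mul_mem_right _ q ?_
      refine Ideal.mem_of_dvd q (Finset.dvd_prod_of_mem h (hfin.mem_toFinset.mpr hq)) (hh1 q hq hqP)
  have h0 := hTJ x hx _ hmem
  rw [map_mul] at h0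
  exact (mul_eq_zero.mp h0).resolve_left hxH

theorem rad_bound (K : Subfield ℝ) {σ : Type} [Fintype σ] (J : Ideal (MvPolynomial σ K)) (hJ : J.IsRadical)
    (T : Set (σ → ℝ)) (hT : ∀ f, f ∉ J → ∃ x ∈ T, aeval x f ≠ 0) (hTJ : ∀ x ∈ T, ∀ f ∈ J, aeval x f = 0) {s : ℕ}
    (hg : ∀ x ∈ T, ∃ g : Fin s → MvPolynomial σ K, (∀ i, g i ∈ J) ∧
      LinearIndependent ℝ (fun i : Fin s => fun a : σ => aeval x (pderiv a (g i))))
    (w : σ → ℂ) (hw : ∀ f ∈ J, aeval w f = 0) :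
    (mat K).eRk (Set.range w) + s ≤ (Fintype.card σ : ℕ∞) := by
  obtain ⟨P, hP, hJP, hPw, x, hx, hPx⟩ := pick K J hJ T hT hTJ w hw
  obtain ⟨g, hgJ, hind⟩ := hg x hx
  exact prime_bound K P x hPx g (fun i => hJP (hgJ i)) hind w hPw

theorem rad_bound_strict (K : Subfield ℝ) {σ : Type} [Fintype σ] (J : Ideal (MvPolynomial σ K)) (hJ : J.IsRadical)
    (T : Set (σ → ℝ)) (hT : ∀ f, f ∉ J → ∃ x ∈ T, aeval x f ≠ 0) (hTJ : ∀ x ∈ T, ∀ f ∈ J, aeval x f = 0) {s : ℕ}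
    (hg : ∀ x ∈ T, ∃ g : Fin s → MvPolynomial σ K, (∀ i, g i ∈ J) ∧
      LinearIndependent ℝ (fun i : Fin s => fun a : σ => aeval x (pderiv a (g i))))
    (I : Ideal (MvPolynomial σ K)) (hI : ∀ x ∈ T, ∃ f ∈ I, aeval x f ≠ 0)
    (w : σ → ℂ) (hw : ∀ f ∈ J, aeval w f = 0) (hwI : ∀ f ∈ I, aeval w f = 0) :
    (mat K).eRk (Set.range w) + (s + 1 : ℕ) ≤ (Fintype.card σ : ℕ∞) := by
  obtain ⟨P, hP, hJP, hPw, x, hx, hPx⟩ := pick K J hJ T hT hTJ w hw
  obtain ⟨g, hgJ, hind⟩ := hg x hx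
  obtain ⟨f, hfI, hfx⟩ := hI x hx
  exact prime_bound_strict K P x hPx g (fun i => hJP (hgJ i)) hind w hPw f (hwI f hfI)
    (fun hfP => hfx (hPx f hfP))

end Pool.Agent.Helper78.BPG
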